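import Pool.Agent.Helper86.TwoBridge.PingPong

/-!
Counting the roots of unity for which a word is good.
-/

namespace Pool.Agent.Helper86.TwoBridge

open Finset

/-- the number of pairs of neighbours which are congruent modulo `d` -/
def adj (d : ℕ) : List ℤ → ℕ
  | [] => 0
  | [_] => 0
  | a :: b :: l => (if a ≡ b [ZMOD d] then 1 else 0) + adj d (b :: l)

lemma adj_cons_le (d : ℕ) (a : ℤ) (B : List ℤ) : adj d B ≤ adj d (a :: B) := by
  cases B with
  | nil => simp [adj]
  | cons b B => rw [adj]; omega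

lemma adj_cons_le' (d : ℕ) (a : ℤ) (B : List ℤ) : adj d (a :: B) ≤ adj d B + 1 := by
  cases B with
  | nil => simp [adj]
  | cons b B => rw [adj]; split_ifs <;> omega

lemma adj_insert {d : ℕ} (A B : List ℤ) {a a' : ℤ} (h : a ≡ a' [ZMOD d]) :
    adj d (A ++ B) ≤ adj d (A ++ a :: a' :: B) ∧ 1 ≤ adj d (A ++ a :: a' :: B) := by
  induction A with
  | nil =>
    have h1 := adj_cons_le d a' B
    simp only [List.nil_append]
    rw [adj, if_pos h]
    omega
  | cons x A ih =>
    cases A with
    | nil =>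
      have h1 := adj_cons_le d a' B
      have h2 := adj_cons_le' d x B
      simp only [List.cons_append, List.nil_append]
      rw [adj, adj, if_pos h]
      omega
    | cons y A =>
      simp only [List.cons_append] at ih ⊢
      rw [adj, adj]
      omega

lemma adj_insert_left {d : ℕ} (B : List ℤ) {a a' : ℤ} (h : a ≡ a' [ZMOD d]) :
    adj d B + 1 ≤ adj d (a :: a' :: B) := by
  have h1 := adj_cons_le d a' B
  rw [adj, if_pos h]
  omega

lemma adj_insert_right {d : ℕ} (A : List ℤ) {a a' : ℤ} (h : a ≡ a' [ZMOD d]) :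
    adj d A + 1 ≤ adj d (A ++ [a, a']) := by
  induction A with
  | nil => simp [adj, h]
  | cons x A ih =>
    cases A with
    | nil =>
      simp [adj, h]
    | cons y A =>
      simp only [List.cons_append] at ih ⊢
      rw [adj, adj]
      omega

/-- first letter -/
def hd (W : List ℤ) : ℤ := W.head?.getD 0
/-- last letter -/
def ls (W : List ℤ) : ℤ := W.getLast?.getD 0

@[simp] lemma hd_cons (a : ℤ) (W : List ℤ) : hd (a :: W) = a := rfl
@[simp] lemma ls_single (a : ℤ) : ls [a] = a := rfl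
@[simp] lemma ls_cons_cons (a b : ℤ) (W : List ℤ) : ls (a :: b :: W) = ls (b :: W) := by
  simp [ls]
lemma hd_append {A B : List ℤ} (hA : A ≠ []) : hd (A ++ B) = hd A := by
  cases A with
  | nil => exact absurd rfl hA
  | cons a A => rfl
lemma ls_append {A B : List ℤ} (hB : B ≠ []) : ls (A ++ B) = ls B := by
  unfold ls
  rw [List.getLast?_append_of_ne_nil _ hB]

/-- the number of events -/
def ev (d : ℕ) (u W : List ℤ) : ℕ :=
  if u = [] then adj d W + (if hd W ≡ ls W [ZMOD d] then 1 else 0)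
  else adj d W + (if hd W ≡ hd u [ZMOD d] then 1 else 0) + (if ls W ≡ ls u [ZMOD d] then 1 else 0)

lemma Good.ne_nil {d : ℕ} {u W : List ℤ} (hg : Good d u W) (hu : u ≠ []) : W ≠ [] := by
  cases hg with
  | base h => rintro rfl; cases h; exact hu rfl
  | step => simp

lemma forall₂_hd {d : ℕ} {u W : List ℤ} (h : List.Forall₂ (fun a b => a ≡ b [ZMOD d]) W u) :
    hd W ≡ hd u [ZMOD d] := by
  cases h with
  | nil => exact Int.ModEq.refl _
  | cons h _ => exact h

lemma forall₂_ls {d : ℕ} {u W : List ℤ} (h : List.Forall₂ (fun a b => a ≡ b [ZMOD d]) W u) :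
    ls W ≡ ls u [ZMOD d] := by
  induction h with
  | nil => exact Int.ModEq.refl _
  | @cons a b l l' hab hl ih =>
    cases hl with
    | nil => exact hab
    | cons h1 h2 => simpa using ih

/-- at least two events -/
lemma Good.two_le_ev {d : ℕ} {u W : List ℤ} (hg : Good d u W) (hW : W ≠ []) : 2 ≤ ev d u W := by
  by_cases hu : u = []
  · subst hu
    induction hg with
    | base h => cases h; exact absurd rfl hW
    | @step A B a a' hab hg ih =>
      unfold ev at ih ⊢
      simp only [if_true] at ih ⊢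
      by_cases hA : A = []
      · subst hA
        by_cases hB : B = []
        · subst hB
          simp [adj, hab]
        · have := ih (by simpa using hB)
          have h1 := adj_insert_left B hab
          simp only [List.nil_append] at this ⊢
          split_ifs at this ⊢ <;> omega
      · by_cases hB : B = []
        · subst hB
          have := ih (by simpa using hA)
          have h1 := adj_insert_right A hab
          simp only [List.append_nil] at this ⊢
          split_ifs at this ⊢ <;> omega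
        · have := ih (by simp [hA])
          have h1 := adj_insert A B hab
          rw [hd_append hA, ls_append hB] at this
          rw [hd_append hA, ls_append (by simp), show a :: a' :: B = [a, a'] ++ B by rfl,
            ls_append hB]
          simp only [List.cons_append, List.nil_append]
          split_ifs at this ⊢ <;> omega
  · induction hg with
    | base h =>
      unfold ev
      rw [if_neg hu, if_pos (forall₂_hd h), if_pos (forall₂_ls h)]
      omega
    | @step A B a a' hab hg ih =>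
      have hAB : A ++ B ≠ [] := hg.ne_nil hu
      have ih := ih hAB
      unfold ev at ih ⊢
      rw [if_neg hu] at ih ⊢
      by_cases hA : A = []
      · subst hA
        have hB : B ≠ [] := by simpa using hAB
        have h1 := adj_insert_left B hab
        have h2 : ls (a :: a' :: B) = ls B := by
          rw [show a :: a' :: B = [a, a'] ++ B by rfl, ls_append hB]
        simp only [List.nil_append] at ih ⊢
        simp only [h2]
        split_ifs at ih ⊢ <;> omega
      · by_cases hB : B = []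
        · subst hB
          have h1 := adj_insert_right A hab
          simp only [List.append_nil] at ih ⊢
          rw [hd_append hA]
          split_ifs at ih ⊢ <;> omega
        · have h1 := adj_insert A B hab
          rw [hd_append hA, ls_append hB] at ih
          rw [hd_append hA, ls_append (by simp), show a :: a' :: B = [a, a'] ++ B by rfl,
            ls_append hB]
          simp only [List.cons_append, List.nil_append]
          split_ifs at ih ⊢ <;> omega

/-- the number of elements of a set of nontrivial roots of unity whose order divides `x` -/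
lemma card_dvd_le (V : Finset ℂ) (hV : ∀ ζ ∈ V, ζ ≠ 1) {x : ℤ} (hx : 0 < x) :
    ((V.filter fun ζ => ((orderOf ζ : ℕ) : ℤ) ∣ x).card : ℤ) ≤ x - 1 := by
  classical
  obtain ⟨n, rfl⟩ := Int.eq_ofNat_of_zero_le hx.le
  have hn : 0 < n := by exact_mod_cast hx
  have hsub : (V.filter fun ζ => ((orderOf ζ : ℕ) : ℤ) ∣ (n : ℤ)) ⊆
      (Polynomial.nthRootsFinset n (1 : ℂ)).erase 1 := by
    intro ζ hζ
    rw [mem_filter] at hζ
    rw [mem_erase, Polynomial.mem_nthRootsFinset hn]
    refine ⟨hV ζ hζ.1, ?_⟩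
    have : orderOf ζ ∣ n := by exact_mod_cast hζ.2
    exact orderOf_dvd_iff_pow_eq_one.1 this
  have h1 := card_le_card hsub
  have h2 : (1 : ℂ) ∈ Polynomial.nthRootsFinset n (1 : ℂ) := by
    rw [Polynomial.mem_nthRootsFinset hn]; simp
  rw [card_erase_of_mem h2] at h1
  have h3 : (Polynomial.nthRootsFinset n (1 : ℂ)).card ≤ n := by
    have := (Complex.isPrimitiveRoot_exp n hn.ne').card_nthRootsFinset
    exact this.le
  have h4 : 1 ≤ (Polynomial.nthRootsFinset n (1 : ℂ)).card := card_pos.2 ⟨1, h2⟩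
  have : (V.filter fun ζ => ((orderOf ζ : ℕ) : ℤ) ∣ (n : ℤ)).card + 1 ≤ n := by omega
  have h5 : (((V.filter fun ζ => ((orderOf ζ : ℕ) : ℤ) ∣ (n : ℤ)).card : ℤ)) + 1 ≤ n := by
    exact_mod_cast this
  linarith

lemma sum_ite_modEq (V : Finset ℂ) (a b : ℤ) :
    ((∑ ζ ∈ V, (if a ≡ b [ZMOD (orderOf ζ : ℕ)] then 1 else 0) : ℕ) : ℤ) =
      (V.filter fun ζ => ((orderOf ζ : ℕ) : ℤ) ∣ (a - b)).card := by
  classical
  rw [card_filter]
  push_cast
  refine sum_congr rfl fun ζ _ => ?_
  have : (a ≡ b [ZMOD (orderOf ζ : ℕ)]) ↔ ((orderOf ζ : ℕ) : ℤ) ∣ (a - b) := by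
    exact ⟨fun h => Int.modEq_iff_dvd.1 h.symm, fun h => (Int.modEq_iff_dvd.2 h).symm⟩
  simp only [this]

lemma sum_adj_le (V : Finset ℂ) (hV : ∀ ζ ∈ V, ζ ≠ 1) (W : List ℤ) (hW : W ≠ [])
    (hdec : W.IsChain (· > ·)) :
    ((∑ ζ ∈ V, adj (orderOf ζ) W : ℕ) : ℤ) ≤ hd W - ls W - (W.length - 1) := by
  induction W with
  | nil => exact absurd rfl hW
  | cons a W ih =>
    cases W with
    | nil => simp [adj]
    | cons b W =>
      have hab : a > b := (List.isChain_cons_cons.1 hdec).1
      have ih := ih (by simp) (List.isChain_cons_cons.1 hdec).2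
      have h1 : (∑ ζ ∈ V, adj (orderOf ζ) (a :: b :: W)) =
          (∑ ζ ∈ V, (if a ≡ b [ZMOD (orderOf ζ : ℕ)] then 1 else 0)) +
            ∑ ζ ∈ V, adj (orderOf ζ) (b :: W) := by
        rw [← sum_add_distrib]; rfl
      rw [h1, Nat.cast_add, sum_ite_modEq]
      have h2 := card_dvd_le V hV (x := a - b) (by linarith)
      simp only [hd_cons, ls_cons_cons, List.length_cons] at ih ⊢
      push_cast at ih ⊢
      linarith

lemma alt_hd (e : Bool) (k : ℕ) (h : alt e k ≠ []) : hd (alt e k) = 0 ∨ hd (alt e k) = -1 := by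
  cases k with
  | zero => exact absurd rfl h
  | succ k => cases e <;> simp [alt]

lemma alt_ls (e : Bool) (k : ℕ) (h : alt e k ≠ []) : ls (alt e k) = 0 ∨ ls (alt e k) = -1 := by
  induction k generalizing e with
  | zero => exact absurd rfl h
  | succ k ih =>
    cases k with
    | zero => cases e <;> simp [alt]
    | succ k =>
      have := ih (!e) (by simp [alt])
      simp only [alt] at this ⊢
      rw [ls_cons_cons]
      exact this

/-- the bound for one type -/
lemma card_one_type {N : ℕ} (V : Finset ℂ) (hV : ∀ ζ ∈ V, ζ ≠ 1) (hVN : ∀ ζ ∈ V, ζ ^ N = 1)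
    (W : List ℤ) (hW : W ≠ []) (hdec : W.IsChain (· > ·)) (hhd : hd W ≤ N - 2)
    (hls : 1 ≤ ls W) (hle : ls W ≤ hd W) (e : Bool) (k : ℕ)
    (hg : ∀ ζ ∈ V, Good (orderOf ζ) (alt e k) W) :
    2 * V.card + 1 ≤ N := by
  classical
  have hord : ∀ ζ ∈ V, ((orderOf ζ : ℕ) : ℤ) ∣ N := by
    intro ζ hζ
    exact_mod_cast orderOf_dvd_iff_pow_eq_one.2 (hVN ζ hζ)
  have hlen : 1 ≤ W.length := List.length_pos_of_ne_nil hW
  have hadj := sum_adj_le V hV W hW hdec
  have h2 : 2 * V.card ≤ ∑ ζ ∈ V, ev (orderOf ζ) (alt e k) W := by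
    rw [mul_comm, ← smul_eq_mul, ← sum_const]
    exact sum_le_sum fun ζ hζ => (hg ζ hζ).two_le_ev hW
  have h2' : (2 * V.card : ℤ) ≤ ((∑ ζ ∈ V, ev (orderOf ζ) (alt e k) W : ℕ) : ℤ) := by
    exact_mod_cast h2
  by_cases hu : alt e k = []
  · have h3 : ∑ ζ ∈ V, ev (orderOf ζ) (alt e k) W = (∑ ζ ∈ V, adj (orderOf ζ) W) +
        ∑ ζ ∈ V, (if hd W ≡ ls W [ZMOD (orderOf ζ : ℕ)] then 1 else 0) := by
      rw [← sum_add_distrib]
      refine sum_congr rfl fun ζ _ => ?_
      unfold ev
      rw [if_pos hu]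
    rw [h3, Nat.cast_add, sum_ite_modEq] at h2'
    have h4 : (V.filter fun ζ => ((orderOf ζ : ℕ) : ℤ) ∣ (hd W - ls W)).card ≤
        (V.filter fun ζ => ((orderOf ζ : ℕ) : ℤ) ∣ (N - (hd W - ls W))).card := by
      apply card_le_card
      intro ζ hζ
      rw [mem_filter] at hζ ⊢
      exact ⟨hζ.1, dvd_sub (hord ζ hζ.1) hζ.2⟩
    have h5 := card_dvd_le V hV (x := N - (hd W - ls W)) (by linarith)
    have h4' : ((V.filter fun ζ => ((orderOf ζ : ℕ) : ℤ) ∣ (hd W - ls W)).card : ℤ) ≤
        (V.filter fun ζ => ((orderOf ζ : ℕ) : ℤ) ∣ (N - (hd W - ls W))).card := by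
      exact_mod_cast h4
    have : (1 : ℤ) ≤ W.length := by exact_mod_cast hlen
    have : (2 * V.card + 1 : ℤ) ≤ N := by linarith
    exact_mod_cast this
  · have h3 : ∑ ζ ∈ V, ev (orderOf ζ) (alt e k) W = (∑ ζ ∈ V, adj (orderOf ζ) W) +
        (∑ ζ ∈ V, (if hd W ≡ hd (alt e k) [ZMOD (orderOf ζ : ℕ)] then 1 else 0)) +
        ∑ ζ ∈ V, (if ls W ≡ ls (alt e k) [ZMOD (orderOf ζ : ℕ)] then 1 else 0) := by
      rw [← sum_add_distrib, ← sum_add_distrib]
      refine sum_congr rfl fun ζ _ => ?_
      unfold ev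
      rw [if_neg hu]
    rw [h3, Nat.cast_add, Nat.cast_add, sum_ite_modEq, sum_ite_modEq] at h2'
    have hA : ((V.filter fun ζ => ((orderOf ζ : ℕ) : ℤ) ∣ (hd W - hd (alt e k))).card : ℤ) ≤
        N - hd W - 1 := by
      have hc := alt_hd e k hu
      have h4 : (V.filter fun ζ => ((orderOf ζ : ℕ) : ℤ) ∣ (hd W - hd (alt e k))).card ≤
          (V.filter fun ζ => ((orderOf ζ : ℕ) : ℤ) ∣ (N - (hd W - hd (alt e k)))).card := by
        apply card_le_card
        intro ζ hζ
        rw [mem_filter] at hζ ⊢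
        exact ⟨hζ.1, dvd_sub (hord ζ hζ.1) hζ.2⟩
      have h4' : ((V.filter fun ζ => ((orderOf ζ : ℕ) : ℤ) ∣ (hd W - hd (alt e k))).card : ℤ) ≤
          (V.filter fun ζ => ((orderOf ζ : ℕ) : ℤ) ∣ (N - (hd W - hd (alt e k)))).card := by
        exact_mod_cast h4
      have h5 := card_dvd_le V hV (x := N - (hd W - hd (alt e k)))
        (by rcases hc with h | h <;> rw [h] <;> linarith)
      rcases hc with h | h <;> rw [h] at h4' h5 ⊢ <;> linarith
    have hB : ((V.filter fun ζ => ((orderOf ζ : ℕ) : ℤ) ∣ (ls W - ls (alt e k))).card : ℤ) ≤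
        ls W := by
      have hc := alt_ls e k hu
      have h5 := card_dvd_le V hV (x := ls W - ls (alt e k))
        (by rcases hc with h | h <;> rw [h] <;> linarith)
      rcases hc with h | h <;> rw [h] at h5 ⊢ <;> linarith
    have : (1 : ℤ) ≤ W.length := by exact_mod_cast hlen
    have : (2 * V.card + 1 : ℤ) ≤ N := by linarith
    exact_mod_cast this

lemma coprime_lcm {ι : Type*} [DecidableEq ι] (s : Finset ι) (f : ι → ℕ) (b : ℕ)
    (h : ∀ i ∈ s, Nat.Coprime (f i) b) : Nat.Coprime (s.lcm f) b := by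
  induction s using Finset.induction_on with
  | empty => simp
  | insert i s hi ih =>
    rw [Finset.lcm_insert]
    have h1 := h i (mem_insert_self i s)
    have h2 := ih fun j hj => h j (mem_insert_of_mem hj)
    have h3 : Nat.Coprime (f i * s.lcm f) b := Nat.Coprime.mul_left h1 h2
    exact Nat.Coprime.coprime_dvd_left (Nat.lcm_dvd_mul _ _) h3

/-- the bound for all types together -/
lemma two_mul_card_le {N : ℕ} (hN : Odd N) (V : Finset ℂ) (hV : ∀ ζ ∈ V, ζ ≠ 1)
    (hVN : ∀ ζ ∈ V, ζ ^ N = 1) (W : List ℤ) (hW : W ≠ []) (hdec : W.IsChain (· > ·))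
    (hhd : hd W ≤ N - 2) (hls : 1 ≤ ls W) (hle : ls W ≤ hd W)
    (hg : ∀ ζ ∈ V, ∃ e k, Good (orderOf ζ) (alt e k) W) :
    2 * V.card + 1 ≤ N := by
  classical
  have hN0 : 0 < N := hN.pos
  have hord : ∀ ζ ∈ V, orderOf ζ ∣ N := fun ζ hζ => orderOf_dvd_iff_pow_eq_one.2 (hVN ζ hζ)
  have hord3 : ∀ ζ ∈ V, 3 ≤ orderOf ζ := by
    intro ζ hζ
    have h1 : Odd (orderOf ζ) := hN.of_dvd_nat (hord ζ hζ)
    have h2 : orderOf ζ ≠ 1 := fun h => hV ζ hζ (orderOf_eq_one_iff.1 h)
    obtain ⟨m, hm⟩ := h1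
    omega
  by_cases hall : ∃ u, ∀ ζ ∈ V, Good (orderOf ζ) u W ∧ ∃ e k, u = alt e k
  · obtain ⟨u, hu⟩ := hall
    rcases V.eq_empty_or_nonempty with rfl | ⟨ζ0, hζ0⟩
    · simpa using (show 1 ≤ N from hN0)
    · obtain ⟨e, k, rfl⟩ := (hu ζ0 hζ0).2
      exact card_one_type V hV hVN W hW hdec hhd hls hle e k fun ζ hζ => (hu ζ hζ).1
  · rcases V.eq_empty_or_nonempty with rfl | ⟨ζ1, hζ1⟩
    · simpa using (show 1 ≤ N from hN0)
    obtain ⟨e, k, hg1⟩ := hg ζ1 hζ1
    set V1 := V.filter fun ζ => Good (orderOf ζ) (alt e k) W with hV1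
    set V2 := V.filter fun ζ => ¬ Good (orderOf ζ) (alt e k) W with hV2
    have hcard : V.card = V1.card + V2.card := (card_filter_add_card_filter_not _).symm
    have hV2ne : V2.Nonempty := by
      by_contra hne
      rw [not_nonempty_iff_eq_empty, hV2, filter_eq_empty_iff] at hne
      exact hall ⟨alt e k, fun ζ hζ => ⟨not_not.1 (hne hζ), e, k, rfl⟩⟩
    obtain ⟨ζ2, hζ2⟩ := hV2ne
    set A := V1.lcm fun ζ => orderOf ζ with hA
    set B := V2.lcm fun ζ => orderOf ζ with hB
    have hcop : Nat.Coprime A B := by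
      apply coprime_lcm
      intro x hx
      apply Nat.Coprime.symm
      apply coprime_lcm
      intro y hy
      rw [hV1, mem_filter] at hx
      rw [hV2, mem_filter] at hy
      by_contra hc
      have hgN : Nat.gcd (orderOf y) (orderOf x) ∣ N := (Nat.gcd_dvd_left _ _).trans (hord y hy.1)
      have hg3 : 3 ≤ Nat.gcd (orderOf y) (orderOf x) := by
        have h1 : Odd (Nat.gcd (orderOf y) (orderOf x)) := hN.of_dvd_nat hgN
        obtain ⟨m, hm⟩ := h1
        have h2 : Nat.gcd (orderOf y) (orderOf x) ≠ 1 := hc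
        omega
      obtain ⟨e', k', hgy⟩ := hg y hy.1
      have t1 := hx.2.mono (Nat.gcd_dvd_right (orderOf y) (orderOf x))
      have t2 := hgy.mono (Nat.gcd_dvd_left (orderOf y) (orderOf x))
      have := Good.unique hg3 t1 t2
      exact hy.2 (by rw [this]; exact hgy)
    have hAN : A ∣ N := Finset.lcm_dvd fun x hx => hord x (mem_filter.1 hx).1
    have hBN : B ∣ N := Finset.lcm_dvd fun x hx => hord x (mem_filter.1 hx).1
    have hAB : A * B ≤ N := Nat.le_of_dvd hN0 (hcop.mul_dvd_of_dvd_of_dvd hAN hBN)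
    have hA0 : 0 < A := Nat.pos_of_dvd_of_pos hAN hN0
    have hB0 : 0 < B := Nat.pos_of_dvd_of_pos hBN hN0
    have hA3 : 3 ≤ A := by
      have h1 : orderOf ζ1 ∣ A := Finset.dvd_lcm (mem_filter.2 ⟨hζ1, hg1⟩)
      exact (hord3 ζ1 hζ1).trans (Nat.le_of_dvd hA0 h1)
    have hB3 : 3 ≤ B := by
      have h1 : orderOf ζ2 ∣ B := Finset.dvd_lcm hζ2
      exact (hord3 ζ2 (mem_filter.1 hζ2).1).trans (Nat.le_of_dvd hB0 h1)
    have c1 : (V1.card : ℤ) ≤ A - 1 := by
      have := card_dvd_le V1 (fun ζ hζ => hV ζ (mem_filter.1 hζ).1) (x := A) (by exact_mod_cast hA0)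
      have h2 : (V1.filter fun ζ => ((orderOf ζ : ℕ) : ℤ) ∣ (A : ℤ)) = V1 := by
        rw [filter_eq_self]
        intro ζ hζ
        exact_mod_cast Finset.dvd_lcm hζ
      rwa [h2] at this
    have c2 : (V2.card : ℤ) ≤ B - 1 := by
      have := card_dvd_le V2 (fun ζ hζ => hV ζ (mem_filter.1 hζ).1) (x := B) (by exact_mod_cast hB0)
      have h2 : (V2.filter fun ζ => ((orderOf ζ : ℕ) : ℤ) ∣ (B : ℤ)) = V2 := by
        rw [filter_eq_self]
        intro ζ hζ
        exact_mod_cast Finset.dvd_lcm hζ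
      rwa [h2] at this
    have c3 : 2 * (V1.card + V2.card : ℤ) + 1 ≤ N := by
      have hAB' : (A : ℤ) * B ≤ N := by exact_mod_cast hAB
      have hA3' : (3 : ℤ) ≤ A := by exact_mod_cast hA3
      have hB3' : (3 : ℤ) ≤ B := by exact_mod_cast hB3
      nlinarith
    rw [hcard]
    exact_mod_cast c3

lemma ls_le_hd (b : ℤ) (W : List ℤ) (h : (b :: W).IsChain (· > ·)) : ls (b :: W) ≤ b := by
  induction W generalizing b with
  | nil => simp
  | cons c W ih =>
    rw [List.isChain_cons_cons] at h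
    rw [ls_cons_cons]
    exact (ih c h.2).trans h.1.le

/-- primitive roots are never good -/
lemma card_add_totient_le {N : ℕ} (hN : 3 ≤ N) (V : Finset ℂ) (hV : ∀ ζ ∈ V, ζ ≠ 1)
    (hVN : ∀ ζ ∈ V, ζ ^ N = 1) (W : List ℤ) (hW : W ≠ []) (hdec : W.IsChain (· > ·))
    (hhd : hd W ≤ N - 2) (hls : 1 ≤ ls W) (hle : ls W ≤ hd W)
    (hg : ∀ ζ ∈ V, ∃ e k, Good (orderOf ζ) (alt e k) W) :
    V.card + N.totient + 1 ≤ N := by
  classical
  have hN0 : 0 < N := by omega
  have hadj0 : ∀ W : List ℤ, W.IsChain (· > ·) → hd W ≤ N - 2 → 1 ≤ ls W → adj N W = 0 := by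
    intro W
    induction W with
    | nil => intros; rfl
    | cons a W ih =>
      intro h1 h2 h3
      cases W with
      | nil => rfl
      | cons b W =>
        rw [List.isChain_cons_cons] at h1
        have hb : ls (b :: W) ≤ b := ls_le_hd b W h1.2
        rw [hd_cons] at h2
        rw [ls_cons_cons] at h3
        rw [adj, ih h1.2 (by rw [hd_cons]; linarith [h1.1]) h3, if_neg, add_zero]
        intro hmod
        replace hmod := Int.modEq_iff_dvd.1 hmod.symm
        have := Int.le_of_dvd (by linarith [h1.1]) hmod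
        linarith
  have hprim : ∀ ζ ∈ V, orderOf ζ ≠ N := by
    intro ζ hζ ho
    obtain ⟨e, k, h⟩ := hg ζ hζ
    rw [ho] at h
    have h2 := h.two_le_ev hW
    unfold ev at h2
    rw [hadj0 W hdec hhd hls] at h2
    by_cases hu : alt e k = []
    · rw [if_pos hu] at h2
      split_ifs at h2 <;> omega
    · rw [if_neg hu] at h2
      have : ¬ hd W ≡ hd (alt e k) [ZMOD N] := by
        intro hmod
        replace hmod := Int.modEq_iff_dvd.1 hmod.symm
        rcases alt_hd e k hu with h' | h' <;> rw [h'] at hmod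
        · have := Int.le_of_dvd (by linarith) hmod
          linarith
        · have := Int.le_of_dvd (by linarith) hmod
          linarith
      rw [if_neg this] at h2
      split_ifs at h2 <;> omega
  have hsub : V ∪ primitiveRoots N ℂ ⊆ (Polynomial.nthRootsFinset N (1 : ℂ)).erase 1 := by
    intro ζ hζ
    rw [mem_union] at hζ
    rw [mem_erase, Polynomial.mem_nthRootsFinset hN0]
    rcases hζ with h | h
    · exact ⟨hV ζ h, hVN ζ h⟩
    · have := (mem_primitiveRoots hN0).1 h
      refine ⟨?_, this.pow_eq_one⟩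
      rintro rfl
      have := this.eq_orderOf
      rw [orderOf_one] at this
      omega
  have hdisj : Disjoint V (primitiveRoots N ℂ) := by
    rw [Finset.disjoint_left]
    intro ζ h1 h2
    exact hprim ζ h1 ((mem_primitiveRoots hN0).1 h2).eq_orderOf.symm
  have h1 := card_le_card hsub
  rw [card_union_of_disjoint hdisj, Complex.card_primitiveRoots] at h1
  have h2 : (1 : ℂ) ∈ Polynomial.nthRootsFinset N (1 : ℂ) := by
    rw [Polynomial.mem_nthRootsFinset hN0]; simp
  rw [card_erase_of_mem h2, (Complex.isPrimitiveRoot_exp N hN0.ne').card_nthRootsFinset] at h1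
  omega

end Pool.Agent.Helper86.TwoBridge
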