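import Pool.Agent.Helper86.TwoBridge.Poly

/-!
The zeros of the polynomials which are roots of unity, and the main theorem.
-/

namespace Pool.Agent.Helper86.TwoBridge

open Polynomial

/-! ### the word of a list of signs -/

/-- the positions of the sign changes -/
def word : List ℤ → List ℤ
  | [] => []
  | [_] => []
  | b :: b' :: l => if b = b' then word (b' :: l) else ((l.length + 1 : ℕ) : ℤ) :: word (b' :: l)

lemma word_mem (l : List ℤ) : ∀ x ∈ word l, 1 ≤ x ∧ x + 1 ≤ l.length := by
  induction l using K.induct with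
  | case1 => simp [word]
  | case2 => simp [word]
  | case3 b b' l ih _ =>
    intro x hx
    by_cases h : b = b'
    · rw [word, if_pos h] at hx
      have := ih x hx
      simp only [List.length_cons] at this ⊢
      push_cast at this ⊢
      constructor <;> linarith [this.1, this.2]
    · rw [word, if_neg h, List.mem_cons] at hx
      simp only [List.length_cons]
      push_cast
      rcases hx with rfl | hx
      · push_cast
        constructor <;> linarith [Int.natCast_nonneg l.length]
      · have := ih x hx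
        simp only [List.length_cons] at this
        push_cast at this
        constructor <;> linarith [this.1, this.2]

lemma word_chain (l : List ℤ) : (word l).IsChain (· > ·) := by
  induction l using K.induct with
  | case1 => simp [word]
  | case2 => simp [word]
  | case3 b b' l ih _ =>
    by_cases h : b = b'
    · rw [word, if_pos h]; exact ih
    · rw [word, if_neg h]
      rcases hw : word (b' :: l) with _ | ⟨c, W⟩
      · exact List.IsChain.singleton _
      · rw [List.isChain_cons_cons]
        refine ⟨?_, by rw [← hw]; exact ih⟩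
        have := (word_mem (b' :: l) c (by rw [hw]; simp)).2
        simp only [List.length_cons] at this
        push_cast at this ⊢
        linarith

lemma word_eq_nil {l : List ℤ} (h : word l = []) : ∀ x ∈ l, x = hd l := by
  induction l using K.induct with
  | case1 => simp
  | case2 b => simp
  | case3 b b' l ih _ =>
    by_cases hb : b = b'
    · rw [word, if_pos hb] at h
      intro x hx
      rw [hd_cons]
      rcases List.mem_cons.1 hx with rfl | hx
      · rfl
      · rw [ih h x hx, hd_cons, hb]
    · rw [word, if_neg hb] at h; simp at h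

/-! ### the values at minus roots of unity -/

/-- the real sequence -/
noncomputable def q (θ : ℝ) : List ℤ → ℝ
  | [] => 1
  | [b] => b * (2 * Real.cos θ)
  | b :: b' :: l => b * (2 * Real.cos θ) * q θ (b' :: l) - q θ l

lemma eval_K (θ : ℝ) (l : List ℤ) :
    (toC (K l)).eval (-(Complex.exp (θ * Complex.I)) ^ 2) =
      Complex.exp (θ * Complex.I) ^ l.length * (q θ l : ℂ) := by
  have hz : Complex.exp (θ * Complex.I) ≠ 0 := Complex.exp_ne_zero _
  have hc : (2 * Real.cos θ : ℂ) * Complex.exp (θ * Complex.I) =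
      1 + Complex.exp (θ * Complex.I) ^ 2 := by
    rw [Complex.ofReal_cos, Complex.cos, mul_div_cancel₀ _ (two_ne_zero), add_mul, ← Complex.exp_add,
      ← Complex.exp_add, ← Complex.exp_nat_mul]
    have e1 : (θ : ℂ) * Complex.I + θ * Complex.I = (2 : ℕ) * (θ * Complex.I) := by push_cast; ring
    have e2 : -(θ : ℂ) * Complex.I + θ * Complex.I = 0 := by ring
    rw [e1, e2, Complex.exp_zero]; ring
  set z := Complex.exp (θ * Complex.I) with hzdef
  induction l using K.induct with
  | case1 => simp [K, q]
  | case2 b =>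
    simp only [K, q, toC, Polynomial.map_mul, Polynomial.map_sub, Polynomial.map_one, map_C, map_X,
      eval_mul, eval_sub, eval_one, eval_X, eval_C, List.length_cons, List.length_nil]
    push_cast
    simp only [eq_intCast]
    rw [← Complex.ofReal_cos]
    linear_combination (-(b : ℂ)) * hc
  | case3 b b' l ih1 ih2 =>
    rw [K, q]
    simp only [toC, Polynomial.map_add, Polynomial.map_mul, Polynomial.map_sub, Polynomial.map_one,
      map_C, map_X, eval_mul, eval_sub, eval_one, eval_X, eval_C, eval_add] at ih1 ih2 ⊢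
    rw [ih1, ih2]
    simp only [List.length_cons, eq_intCast]
    push_cast
    rw [← Complex.ofReal_cos]
    linear_combination (-(b : ℂ) * z ^ (l.length + 1) * (q θ (b' :: l) : ℂ)) * hc

lemma two_cos_mul {θ : ℝ} {f : ℤ → ℝ} (hf : IsSol θ f) (m : ℤ) :
    f (m + 1) = 2 * Real.cos θ * f m - f (m - 1) := by
  obtain ⟨A, B, h⟩ := hf
  rw [h, h, h]
  push_cast
  have e1 : ((m : ℝ) + 1) * θ = m * θ + θ := by ring
  have e2 : ((m : ℝ) - 1) * θ = m * θ - θ := by ring
  rw [e1, e2, Real.sin_add, Real.cos_add, Real.sin_sub, Real.cos_sub]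
  ring

lemma act_word {θ : ℝ} (hs : Real.sin θ ≠ 0) (b : ℤ) (l : List ℤ)
    (hl : ∀ x ∈ b :: l, x = 1 ∨ x = -1) :
    ∃ ε : ℝ, (ε = 1 ∨ ε = -1) ∧
      ε * act θ (word (b :: l)) (f0 θ) (l.length + 2) = Real.sin θ * q θ (b :: l) ∧
      ε * act θ (word (b :: l)) (f0 θ) (l.length + 1) = Real.sin θ * b * q θ l := by
  induction l generalizing b with
  | nil =>
    refine ⟨b, by rcases hl b (by simp) with h | h <;> simp [h], ?_, ?_⟩
    · simp only [word, act_nil, f0, q, List.length_nil]
      norm_num
      rw [Real.sin_two_mul]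
      ring
    · simp only [word, act_nil, f0, q, List.length_nil]
      norm_num
      ring
  | cons b' l ih =>
    obtain ⟨ε, hε, h1, h2⟩ := ih b' fun x hx => hl x (List.mem_cons_of_mem _ hx)
    have hb := hl b (by simp)
    have hb' := hl b' (by simp)
    refine ⟨ε * b, by rcases hε with h | h <;> rcases hb with h' | h' <;> simp [h, h'], ?_, ?_⟩
    · simp only [List.length_cons]
      push_cast
      have e1 : ((l.length : ℤ) + 1 + 2) = ((l.length : ℤ) + 2) + 1 := by ring
      have e2 : ((l.length : ℤ) + 2 - 1) = (l.length : ℤ) + 1 := by ring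
      rw [e1, two_cos_mul (isSol_act (isSol_f0 θ) _), e2]
      by_cases hbb : b = b'
      · rw [word, if_pos hbb, q]
        have hbb' : (b : ℝ) * b' = 1 := by
          rw [hbb]; rcases hb' with h | h <;> rw [h] <;> norm_num
        linear_combination (b * (2 * Real.cos θ)) * h1 - b * h2 - (Real.sin θ * q θ l) * hbb'
      · have hbb' : (b : ℝ) * b' = -1 := by
          rcases hb with h | h <;> rcases hb' with h' | h' <;> rw [h, h'] at hbb ⊢ <;> first | (exact absurd rfl hbb) | norm_num
        have hJ1 := J_succ hs (act θ (word (b' :: l)) (f0 θ)) ((l.length + 1 : ℕ) : ℤ)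
        have hJ0 := J_self hs (act θ (word (b' :: l)) (f0 θ)) ((l.length + 1 : ℕ) : ℤ)
        have e3 : (((l.length + 1 : ℕ) : ℤ)) + 1 = (l.length : ℤ) + 2 := by push_cast; ring
        have e4 : (((l.length + 1 : ℕ) : ℤ)) = (l.length : ℤ) + 1 := by push_cast; ring
        rw [e3] at hJ1
        rw [e4] at hJ0 hJ1
        rw [word, if_neg hbb, q, act_cons, e4, hJ1, hJ0]
        linear_combination (b * (2 * Real.cos θ)) * h1 + b * h2 + (Real.sin θ * q θ l) * hbb'
    · simp only [List.length_cons]
      push_cast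
      have e1 : ((l.length : ℤ) + 1 + 1) = ((l.length : ℤ) + 2) := by ring
      rw [e1]
      by_cases hbb : b = b'
      · rw [word, if_pos hbb]
        linear_combination (b : ℝ) * h1
      · have hJ1 := J_succ hs (act θ (word (b' :: l)) (f0 θ)) ((l.length + 1 : ℕ) : ℤ)
        have e3 : (((l.length + 1 : ℕ) : ℤ)) + 1 = (l.length : ℤ) + 2 := by push_cast; ring
        rw [e3] at hJ1
        rw [word, if_neg hbb, act_cons, hJ1]
        linear_combination (b : ℝ) * h1

/-- all zeros which are roots of unity come from good words -/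
lemma zero_good (l : List ℤ) (hl : ∀ x ∈ l, x = 1 ∨ x = -1) (he : Even l.length) (z : ℂ)
    (hz : (toC (K l)).eval z = 0) (n : ℕ) (hn : 0 < n) (hzn : z ^ n = 1) :
    (-z) ^ (l.length + 1) = 1 ∧ -z ≠ 1 ∧ ∃ e k, Good (orderOf (-z)) (alt e k) (word l) := by
  set d := orderOf (-z) with hd
  have hfin : IsOfFinOrder (-z) := by
    rw [isOfFinOrder_iff_pow_eq_one]
    refine ⟨2 * n, by omega, ?_⟩
    rw [pow_mul, neg_sq, ← pow_mul, mul_comm, pow_mul, hzn, one_pow]
  have hd0 : 0 < d := hfin.orderOf_pos
  have hprim : IsPrimitiveRoot (-z) d := IsPrimitiveRoot.orderOf (-z)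
  -- the polynomial `K (-X)`
  set P : ℤ[X] := (K l).comp (-X) with hP
  have hPz : (toC P).eval (-z) = 0 := by
    rw [hP, toC, Polynomial.map_comp, eval_comp]
    simp only [Polynomial.map_neg, map_X, eval_neg, eval_X, neg_neg]
    exact hz
  have hdvd : cyclotomic d ℤ ∣ P := by
    rw [cyclotomic_eq_minpoly hprim hd0]
    apply minpoly.isIntegrallyClosed_dvd (hprim.isIntegral hd0)
    rw [aeval_def, ← eval_map]
    exact hPz
  have hexp : (toC P).eval (Complex.exp (2 * Real.pi * Complex.I / d)) = 0 := by
    obtain ⟨Q, hQ⟩ := hdvd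
    rw [hQ, toC, Polynomial.map_mul, eval_mul, map_cyclotomic]
    have := (Complex.isPrimitiveRoot_exp d hd0.ne').isRoot_cyclotomic hd0
    rw [IsRoot.def] at this
    rw [this, zero_mul]
  have hK : (toC (K l)).eval (-(Complex.exp (2 * Real.pi * Complex.I / d))) = 0 := by
    rw [hP, toC, Polynomial.map_comp, eval_comp] at hexp
    simpa using hexp
  have hd3 : 3 ≤ d := by
    by_contra hlt
    have : d = 1 ∨ d = 2 := by omega
    rcases this with h | h
    · rw [h] at hK
      have e : Complex.exp (2 * Real.pi * Complex.I / (1 : ℕ)) = 1 := by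
        rw [Nat.cast_one, div_one, Complex.exp_two_pi_mul_I]
      rw [e] at hK
      have h1 := eval_K_neg_one l he
      have h2 : (toC (K l)).eval (-1) = (((K l).eval (-1) : ℤ) : ℂ) := by
        have := eval_intCast_map (Int.castRingHom ℂ) (K l) (-1)
        simpa using this
      rw [h2] at hK
      have h3 : (K l).eval (-1) = 0 := by exact_mod_cast hK
      rw [h3] at h1
      exact absurd h1 (by decide)
    · rw [h] at hK
      have e : Complex.exp (2 * Real.pi * Complex.I / (2 : ℕ)) = -1 := by
        have : (2 * Real.pi * Complex.I / (2 : ℕ) : ℂ) = Real.pi * Complex.I := by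
          push_cast; ring
        rw [this, Complex.exp_pi_mul_I]
      rw [e, neg_neg] at hK
      have h2 : (toC (K l)).eval 1 = (((K l).eval 1 : ℤ) : ℂ) := by
        have := eval_intCast_map (Int.castRingHom ℂ) (K l) 1
        simpa using this
      rw [h2, eval_K_one l he] at hK
      norm_num at hK
  -- the real sequence vanishes
  have hq : q (Real.pi / d) l = 0 := by
    have h1 := eval_K (Real.pi / d) l
    have e : Complex.exp ((Real.pi / d : ℝ) * Complex.I) ^ 2 =
        Complex.exp (2 * Real.pi * Complex.I / d) := by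
      rw [← Complex.exp_nat_mul]
      congr 1
      push_cast
      ring
    rw [e, hK] at h1
    have h2 : Complex.exp ((Real.pi / d : ℝ) * Complex.I) ^ l.length ≠ 0 :=
      pow_ne_zero _ (Complex.exp_ne_zero _)
    rcases mul_eq_zero.1 h1.symm with h | h
    · exact absurd h h2
    · exact_mod_cast h
  cases l with
  | nil => simp [q] at hq
  | cons b l =>
    have hs : Real.sin (Real.pi / d) ≠ 0 := by
      apply ne_of_gt
      apply Real.sin_pos_of_pos_of_lt_pi
      · have := Real.pi_pos; positivity
      · have h3 : (3 : ℝ) ≤ d := by exact_mod_cast hd3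
        rw [div_lt_iff₀ (by linarith)]
        nlinarith [Real.pi_pos]
    obtain ⟨ε, hε, h1, -⟩ := act_word hs b l hl
    rw [hq, mul_zero] at h1
    have hε0 : ε ≠ 0 := by rcases hε with h | h <;> rw [h] <;> norm_num
    have h2 : act (Real.pi / d) (word (b :: l)) (f0 (Real.pi / d)) ((l.length : ℤ) + 2) = 0 := by
      rcases mul_eq_zero.1 h1 with h | h
      · exact absurd h hε0
      · exact h
    obtain ⟨h3, e, k, h4⟩ := good_of_zero hd3 _ _ h2
    refine ⟨?_, ?_, e, k, h4⟩
    · rw [List.length_cons, ← orderOf_dvd_iff_pow_eq_one, ← hd]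
      have : ((l.length : ℤ) + 2) = ((l.length + 1 + 1 : ℕ) : ℤ) := by push_cast; ring
      rw [this] at h3
      exact_mod_cast h3
    · intro h5
      rw [hd, h5, orderOf_one] at hd3
      omega

/-! ### the zeros are simple -/

lemma isIntegral_root (f : ℤ[X]) (hf : |f.leadingCoeff| = 1) (z : ℂ) (hz : (toC f).eval z = 0) :
    IsIntegral ℤ z := by
  rcases (abs_eq (by norm_num)).1 hf with h | h
  · exact ⟨f, h, by rw [← eval_map]; exact hz⟩
  · refine ⟨-f, by rw [Monic, leadingCoeff_neg, h]; norm_num, ?_⟩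
    rw [eval₂_neg, ← eval_map]
    have : (map (algebraMap ℤ ℂ) f).eval z = 0 := hz
    rw [this, neg_zero]

lemma isIntegral_eval (R : ℤ[X]) {z : ℂ} (hz : IsIntegral ℤ z) : IsIntegral ℤ ((toC R).eval z) := by
  have : (toC R).eval z = aeval z R := by
    rw [aeval_def, ← eval_map]; rfl
  rw [this]
  exact IsIntegral.of_mem_of_fg (Algebra.adjoin ℤ {z}) hz.fg_adjoin_singleton _
    (aeval_mem_adjoin_singleton ℤ z)

lemma abs_leadingCoeff_K (l : List ℤ) (hl : ∀ x ∈ l, x = 1 ∨ x = -1) :
    |(K l).leadingCoeff| = 1 := by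
  have h0 : 0 ∉ l := by
    intro h
    rcases hl 0 h with h | h <;> norm_num at h
  rw [leadingCoeff_K h0, abs_mul, abs_pow, abs_neg, abs_one, one_pow, one_mul]
  clear h0
  induction l with
  | nil => simp
  | cons a l ih =>
    rw [List.prod_cons, abs_mul, ih fun x hx => hl x (List.mem_cons_of_mem _ hx), mul_one]
    rcases hl a (by simp) with h | h <;> rw [h] <;> simp

/-- all complex zeros of `K l` are simple -/
lemma nodup_roots (l : List ℤ) (hl : ∀ x ∈ l, x = 1 ∨ x = -1) (he : Even l.length) :
    (toC (K l)).roots.Nodup := by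
  have hodd : ∀ b ∈ l, Odd b := by
    intro b hb
    rcases hl b hb with h | h <;> rw [h] <;> decide
  have hlc := abs_leadingCoeff_K l hl
  obtain ⟨R, hR⟩ := K_mod_two l hodd
  have hK0 : toC (K l) ≠ 0 := by
    rw [Ne, Polynomial.map_eq_zero_iff (Int.cast_injective)]
    intro h
    rw [h] at hlc
    simp at hlc
  rw [Multiset.nodup_iff_count_le_one]
  intro z
  rw [count_roots]
  by_contra hlt
  push Not at hlt
  obtain ⟨h1, h2⟩ := (one_lt_rootMultiplicity_iff_isRoot hK0).1 hlt
  have hz := isIntegral_root (K l) hlc z h1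
  have e1 := congrArg (fun f : ℤ[X] => (toC f).eval z) hR
  have e2 := congrArg (fun f : ℤ[X] => (derivative (toC f)).eval z) hR
  rw [IsRoot.def] at h1 h2
  simp only [toC, Polynomial.map_sub, Polynomial.map_one, Polynomial.map_pow, Polynomial.map_X,
    Polynomial.map_add, Polynomial.map_mul, eval_sub, eval_one, eval_pow, eval_X, eval_add,
    eval_mul, Polynomial.map_ofNat, eval_ofNat] at e1 h1 h2
  rw [h1] at e1
  simp only [toC, Polynomial.map_sub, Polynomial.map_one, Polynomial.map_pow, Polynomial.map_X,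
    Polynomial.map_add, Polynomial.map_mul, Polynomial.map_ofNat, derivative_sub, derivative_one,
    derivative_X_pow, derivative_add, derivative_mul, derivative_X, derivative_ofNat,
    eval_sub, eval_add, eval_mul, eval_pow, eval_X, eval_one, eval_zero, eval_ofNat, eval_C,
    eval_natCast, h1, h2] at e2
  set N := l.length + 1 with hN
  have hNz : (N : ℂ) = 2 * ((N : ℂ) * (toC R).eval z - z * (toC (derivative R)).eval z) := by
    have e3 : (toC (derivative R)).eval z = (derivative (toC R)).eval z := by
      rw [toC, toC, derivative_map]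
    rw [e3]
    have e4 : (N : ℂ) * z ^ N = N * z ^ (N - 1) * z := by
      rw [hN]; simp only [Nat.add_sub_cancel]; ring
    simp only [toC]
    push_cast at e2
    linear_combination (N : ℂ) * e1 + e4 - z * e2
  set w := (N : ℂ) * (toC R).eval z - z * (toC (derivative R)).eval z with hw
  have hwi : IsIntegral ℤ w := by
    rw [hw]
    refine IsIntegral.sub ?_ ?_
    · exact (isIntegral_natCast (a := N)).mul (isIntegral_eval R hz)
    · exact hz.mul (isIntegral_eval _ hz)
  have hwq : w = algebraMap ℚ ℂ ((N : ℚ) / 2) := by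
    simp only [eq_ratCast]
    push_cast
    linear_combination -hNz / 2
  rw [hwq, isIntegral_algebraMap_iff (algebraMap ℚ ℂ).injective] at hwi
  obtain ⟨m, hm⟩ := IsIntegrallyClosed.isIntegral_iff.1 hwi
  have h5 : (N : ℚ) = 2 * m := by
    have : (m : ℚ) = (N : ℚ) / 2 := by simpa using hm
    linarith
  have h6 : (N : ℤ) = 2 * m := by exact_mod_cast h5
  obtain ⟨r, hr⟩ := he
  omega

/-! ### the cyclotomic part -/

lemma factor (f : ℤ[X]) (hf : f ≠ 0) : ∃ Φ G : ℤ[X], f = Φ * G ∧ Φ.Monic ∧
    (toC Φ).mahlerMeasure = 1 ∧ (∀ z, (toC Φ).eval z = 0 → ∃ n : ℕ, 0 < n ∧ z ^ n = 1) ∧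
    ∀ z, (toC G).eval z = 0 → ∀ n : ℕ, 0 < n → z ^ n ≠ 1 := by
  induction hn : f.natDegree using Nat.strong_induction_on generalizing f with
  | _ n ih =>
    by_cases h : ∃ z : ℂ, (toC f).eval z = 0 ∧ ∃ m : ℕ, 0 < m ∧ z ^ m = 1
    · obtain ⟨z, hz, m, hm, hzm⟩ := h
      have hd0 : 0 < orderOf z := (isOfFinOrder_iff_pow_eq_one.2 ⟨m, hm, hzm⟩).orderOf_pos
      have hprim := IsPrimitiveRoot.orderOf z
      have hdvd : cyclotomic (orderOf z) ℤ ∣ f := by
        rw [cyclotomic_eq_minpoly hprim hd0]
        apply minpoly.isIntegrallyClosed_dvd (hprim.isIntegral hd0)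
        rw [aeval_def, ← eval_map]
        exact hz
      obtain ⟨g, hg⟩ := hdvd
      have hg0 : g ≠ 0 := by rintro rfl; exact hf (by rw [hg, mul_zero])
      have hdeg : g.natDegree < n := by
        rw [← hn, hg, natDegree_mul (cyclotomic_ne_zero _ _) hg0, natDegree_cyclotomic]
        have := Nat.totient_pos.2 hd0
        omega
      obtain ⟨Φ, G, h1, h2, h3, h4, h5⟩ := ih g.natDegree hdeg g hg0 rfl
      refine ⟨cyclotomic (orderOf z) ℤ * Φ, G, by rw [hg, h1, mul_assoc],
        (cyclotomic.monic _ _).mul h2, ?_, ?_, h5⟩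
      · rw [toC, Polynomial.map_mul, mahlerMeasure_mul, h3, mul_one]
        have := cyclotomic_mahlerMeasure_eq_one (R := ℤ) (orderOf z)
        simpa using this
      · intro w hw
        rw [toC, Polynomial.map_mul, eval_mul, map_cyclotomic] at hw
        rcases mul_eq_zero.1 hw with h | h
        · have : NeZero ((orderOf z : ℕ) : ℂ) := ⟨by exact_mod_cast hd0.ne'⟩
          have := isRoot_cyclotomic_iff.1 (show (cyclotomic (orderOf z) ℂ).IsRoot w from h)
          exact ⟨orderOf z, hd0, this.pow_eq_one⟩
        · exact h4 w h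
    · refine ⟨1, f, by rw [one_mul], monic_one, ?_, ?_, ?_⟩
      · simp [toC]
      · intro z hz; simp [toC] at hz
      · intro z hz m hm hzm
        exact h ⟨z, hz, m, hm, hzm⟩

/-- the lower bound in the case of coefficients `1` and `-1` which are not all equal -/
lemma bound_signs (l : List ℤ) (hl : ∀ x ∈ l, x = 1 ∨ x = -1) (he : Even l.length)
    (hne : word l ≠ []) : ∃ m : ℕ, (5 : ℝ) ^ m ≤ (toC (K l)).mahlerMeasure ^ (4 * (l.length + 1)) ∧
      l.length ≤ 2 * m ∧ (l.length + 1).totient ≤ m ∧ 2 ≤ l.length := by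
  have hodd : ∀ b ∈ l, Odd b := by
    intro b hb
    rcases hl b hb with h | h <;> rw [h] <;> decide
  have hlc := abs_leadingCoeff_K l hl
  have h0 : 0 ∉ l := by
    intro h
    rcases hl 0 h with h | h <;> norm_num at h
  have hlen : 2 ≤ l.length := by
    rcases l with _ | ⟨a, _ | ⟨b, l⟩⟩
    · exact absurd rfl hne
    · exact absurd rfl hne
    · simp
  obtain ⟨R, hR⟩ := K_mod_two l hodd
  have hK0 : K l ≠ 0 := by
    intro h
    rw [h] at hlc
    simp at hlc
  obtain ⟨Φ, G, h1, h2, h3, h4, h5⟩ := factor (K l) hK0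
  have hG : |G.leadingCoeff| = 1 := by
    rw [h1, leadingCoeff_mul, h2.leadingCoeff, one_mul] at hlc
    exact hlc
  have hG0 : G ≠ 0 := by rintro rfl; simp at hG
  have hM : (toC (K l)).mahlerMeasure = (toC G).mahlerMeasure := by
    rw [h1, toC, Polynomial.map_mul, mahlerMeasure_mul]
    rw [show (map (Int.castRingHom ℂ) Φ).mahlerMeasure = 1 from h3, one_mul]
  have hb := bdm (l.length + 1) (by omega) G hG h5 ((1 - X) * Φ) R (by
    rw [hR]
    conv_lhs => rw [h1]
    ring)
  refine ⟨G.natDegree, by rw [hM]; exact hb, ?_⟩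
  have hdeg : Φ.natDegree + G.natDegree = l.length := by
    rw [← natDegree_K h0, h1, natDegree_mul h2.ne_zero hG0]
  have hinj : Function.Injective (Int.castRingHom ℂ) := Int.cast_injective
  have hΦ0 : toC Φ ≠ 0 := by
    rw [Ne, Polynomial.map_eq_zero_iff hinj]
    exact h2.ne_zero
  have hKC0 : toC (K l) ≠ 0 := by
    rw [Ne, Polynomial.map_eq_zero_iff hinj]
    exact hK0
  have hle : (toC Φ).roots ≤ (toC (K l)).roots := by
    apply roots.le_of_dvd hKC0
    rw [h1, toC, toC, Polynomial.map_mul]
    exact dvd_mul_right _ _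
  have hnd : (toC Φ).roots.Nodup := Multiset.nodup_of_le hle (nodup_roots l hl he)
  have hcardΦ : (toC Φ).roots.toFinset.card = Φ.natDegree := by
    rw [Multiset.toFinset_card_of_nodup hnd,
      ← (IsAlgClosed.splits (toC Φ)).natDegree_eq_card_roots, natDegree_map_eq_of_injective hinj]
  classical
  set V : Finset ℂ := (toC Φ).roots.toFinset.image (fun z => -z) with hV
  have hVcard : V.card = Φ.natDegree := by
    rw [hV, Finset.card_image_of_injective _ neg_injective, hcardΦ]
  have hVprop : ∀ ζ ∈ V, ζ ^ (l.length + 1) = 1 ∧ ζ ≠ 1 ∧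
      ∃ e k, Good (orderOf ζ) (alt e k) (word l) := by
    intro ζ hζ
    rw [hV, Finset.mem_image] at hζ
    obtain ⟨z, hz, rfl⟩ := hζ
    rw [Multiset.mem_toFinset] at hz
    have hz0 : (toC Φ).eval z = 0 := isRoot_of_mem_roots hz
    have hzK : (toC (K l)).eval z = 0 := by
      rw [h1, toC, Polynomial.map_mul, eval_mul]
      rw [show (map (Int.castRingHom ℂ) Φ).eval z = 0 from hz0, zero_mul]
    obtain ⟨n, hn, hzn⟩ := h4 z hz0
    exact zero_good l hl he z hzK n hn hzn
  have hhd : hd (word l) ∈ word l := by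
    rcases hw : word l with _ | ⟨a, W⟩
    · exact absurd hw hne
    · simp
  have hls : ls (word l) ∈ word l := by
    unfold ls
    rw [List.getLast?_eq_some_getLast hne, Option.getD_some]
    exact List.getLast_mem hne
  have hhd' := (word_mem l _ hhd).2
  have hls' := (word_mem l _ hls).1
  have hlsle : ls (word l) ≤ hd (word l) := by
    rcases hw : word l with _ | ⟨a, W⟩
    · exact absurd hw hne
    · rw [hd_cons]
      apply ls_le_hd
      rw [← hw]
      exact word_chain l
  have hN : Odd (l.length + 1) := he.add_one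
  have c1 := two_mul_card_le hN V (fun ζ hζ => (hVprop ζ hζ).2.1) (fun ζ hζ => (hVprop ζ hζ).1)
    (word l) hne (word_chain l) (by push_cast; linarith) hls' hlsle
    (fun ζ hζ => (hVprop ζ hζ).2.2)
  have c2 := card_add_totient_le (N := l.length + 1) (by omega) V
    (fun ζ hζ => (hVprop ζ hζ).2.1) (fun ζ hζ => (hVprop ζ hζ).1)
    (word l) hne (word_chain l) (by push_cast; linarith) hls' hlsle
    (fun ζ hζ => (hVprop ζ hζ).2.2)
  rw [hVcard] at c1 c2
  refine ⟨by omega, by omega, hlen⟩

lemma totient_small : ∀ N < 105, N % 2 = 1 → 3 ≤ N → 8 * N ≤ 15 * N.totient := by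
  decide +kernel

/-- the numerical form -/
lemma bound_signs' (l : List ℤ) (hl : ∀ x ∈ l, x = 1 ∨ x = -1) (he : Even l.length)
    (hne : word l ≠ []) : (61 / 50 : ℝ) ≤ (toC (K l)).mahlerMeasure := by
  obtain ⟨m, h1, h2, h3, h4⟩ := bound_signs l hl he hne
  set M := (toC (K l)).mahlerMeasure with hM
  set N := l.length + 1 with hN
  have hM0 : 0 ≤ M := mahlerMeasure_nonneg _
  by_contra hlt
  push Not at hlt
  rcases lt_or_ge N 105 with hsm | hbig
  · have hodd : N % 2 = 1 := by
      obtain ⟨r, hr⟩ := he
      omega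
    have ht := totient_small N hsm hodd (by omega)
    have h5 : (5 : ℝ) ^ (8 * N) ≤ M ^ (60 * N) := by
      calc (5 : ℝ) ^ (8 * N) ≤ 5 ^ (15 * m) := by
            apply pow_le_pow_right₀ (by norm_num)
            omega
        _ = (5 ^ m) ^ 15 := by rw [← pow_mul, mul_comm]
        _ ≤ (M ^ (4 * N)) ^ 15 := pow_le_pow_left₀ (by positivity) h1 15
        _ = M ^ (60 * N) := by rw [← pow_mul]; congr 1; ring
    rw [pow_mul, pow_mul] at h5
    have h6 : (5 : ℝ) ^ 8 ≤ M ^ 60 := by
      exact (pow_le_pow_iff_left₀ (by positivity) (by positivity) (by omega)).1 h5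
    have h7 : M ^ 60 < (61 / 50) ^ 60 := pow_lt_pow_left₀ hlt hM0 (by norm_num)
    have h8 : ((61 : ℝ) / 50) ^ 60 < 5 ^ 8 := by norm_num
    linarith
  · have h5 : (5 : ℝ) ^ (N - 1) ≤ M ^ (8 * N) := by
      calc (5 : ℝ) ^ (N - 1) ≤ 5 ^ (m * 2) := by
            apply pow_le_pow_right₀ (by norm_num)
            omega
        _ = (5 ^ m) ^ 2 := by rw [← pow_mul]
        _ ≤ (M ^ (4 * N)) ^ 2 := pow_le_pow_left₀ (by positivity) h1 2
        _ = M ^ (8 * N) := by rw [← pow_mul]; congr 1; ring
    have h6 : M ^ (8 * N) ≤ ((61 / 50 : ℝ) ^ 8) ^ N := by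
      rw [← pow_mul]
      exact pow_le_pow_left₀ hM0 hlt.le _
    have h7 : 5 * ((61 / 50 : ℝ) ^ 8) ^ N < 5 ^ N := by
      obtain ⟨k, hk⟩ := Nat.exists_eq_add_of_le hbig
      rw [hk, pow_add, pow_add]
      have e1 : 5 * ((61 / 50 : ℝ) ^ 8) ^ 105 < 5 ^ 105 := by norm_num
      have e2 : ((61 / 50 : ℝ) ^ 8) ^ k ≤ 5 ^ k :=
        pow_le_pow_left₀ (by positivity) (by norm_num) k
      have e3 : 0 < ((61 / 50 : ℝ) ^ 8) ^ k := by positivity
      nlinarith [mul_lt_mul_of_pos_right e1 e3,
        mul_le_mul_of_nonneg_left e2 (show (0 : ℝ) ≤ 5 ^ 105 by positivity)]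
    have h8 : (5 : ℝ) ^ N = 5 * 5 ^ (N - 1) := by
      rw [← pow_succ']; congr 1
    linarith

/-! ### the case of equal signs -/

lemma K_const (c : ℤ) (hc : c = 1 ∨ c = -1) (n : ℕ) :
    (1 + X) * K (List.replicate n c) = C (c ^ n) * (1 - (-X) ^ (n + 1)) := by
  have hcc : c * c = 1 := by rcases hc with h | h <;> rw [h] <;> norm_num
  induction n using Nat.strong_induction_on with
  | _ n ih =>
    match n with
    | 0 => simp [K]
    | 1 =>
      simp only [List.replicate, K, pow_one]
      ring
    | n + 2 =>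
      have h1 := ih (n + 1) (by omega)
      have h0 := ih n (by omega)
      simp only [List.replicate] at h1 h0 ⊢
      rw [K]
      have e : C (c ^ (n + 2)) = C (c ^ n) := by
        rw [pow_add, show c ^ 2 = c * c by ring, hcc, mul_one]
      have e' : C c * C (c ^ (n + 1)) = C (c ^ n) := by
        rw [← C_mul, ← pow_succ', show n + 1 + 1 = n + 2 by ring, e]
      rw [e]
      linear_combination (C c * (1 - X)) * h1 + X * h0 +
        ((1 - X) * (1 - (-X) ^ (n + 1 + 1))) * e'

lemma measure_const (c : ℤ) (hc : c = 1 ∨ c = -1) (n : ℕ) :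
    (toC (K (List.replicate n c))).mahlerMeasure = 1 := by
  have hlc := abs_leadingCoeff_K (List.replicate n c) (by
    intro x hx
    rw [List.eq_of_mem_replicate hx]
    exact hc)
  have hinj : Function.Injective (Int.castRingHom ℂ) := Int.cast_injective
  rw [mahlerMeasure_eq_leadingCoeff_mul_prod_roots, leadingCoeff_map_of_injective hinj]
  have h1 : ‖(Int.castRingHom ℂ) (K (List.replicate n c)).leadingCoeff‖ = 1 := by
    simp only [eq_intCast, Complex.norm_intCast]
    exact_mod_cast hlc
  rw [h1, one_mul]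
  apply Multiset.prod_eq_one
  intro x hx
  rw [Multiset.mem_map] at hx
  obtain ⟨z, hz, rfl⟩ := hx
  have hz0 : (toC (K (List.replicate n c))).eval z = 0 := isRoot_of_mem_roots hz
  have h2 := congrArg (fun f : ℤ[X] => (toC f).eval z) (K_const c hc n)
  simp only [toC, Polynomial.map_mul, Polynomial.map_add, Polynomial.map_one, map_X, eval_mul,
    eval_add, eval_one, eval_X, map_C, Polynomial.map_sub, Polynomial.map_pow, Polynomial.map_neg,
    eval_C, eval_sub, eval_pow, eval_neg] at h2 hz0
  rw [hz0, mul_zero] at h2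
  have hc0 : ((Int.castRingHom ℂ) (c ^ n)) ≠ 0 := by
    simp only [eq_intCast, Int.cast_pow]
    apply pow_ne_zero
    rcases hc with h | h <;> rw [h] <;> norm_num
  have h3 : (-z) ^ (n + 1) = 1 := by
    rcases mul_eq_zero.1 h2.symm with h | h
    · exact absurd h hc0
    · linear_combination -h
  have h4 : ‖z‖ = 1 := by
    rw [← norm_neg]
    exact Complex.norm_eq_one_of_pow_eq_one h3 (by omega)
  rw [h4, max_self]

/-- **The gap.** -/
theorem main (l : List ℤ) (h0 : 0 ∉ l) (he : Even l.length) :
    ((toC (K l)).mahlerMeasure = 1 ↔ (∀ x ∈ l, x = 1) ∨ (∀ x ∈ l, x = -1)) ∧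
    ((toC (K l)).mahlerMeasure = 1 ∨ (61 / 50 : ℝ) ≤ (toC (K l)).mahlerMeasure) := by
  have hinj : Function.Injective (Int.castRingHom ℂ) := Int.cast_injective
  have key : ((∀ x ∈ l, x = 1) ∨ (∀ x ∈ l, x = -1)) ∧ (toC (K l)).mahlerMeasure = 1 ∨
      (61 / 50 : ℝ) ≤ (toC (K l)).mahlerMeasure := by
    by_cases hl : ∀ x ∈ l, x = 1 ∨ x = -1
    · by_cases hw : word l = []
      · left
        have h1 := word_eq_nil hw
        rcases l with _ | ⟨a, l⟩
        · exact ⟨Or.inl (by simp), by simp [K, toC]⟩
        · rw [hd_cons] at h1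
          have ha := hl a (by simp)
          have hrep : a :: l = List.replicate (l.length + 1) a := by
            rw [List.eq_replicate_iff]
            exact ⟨by simp, h1⟩
          refine ⟨?_, by rw [hrep]; exact measure_const a ha _⟩
          rcases ha with h | h
          · exact Or.inl (by rw [← h]; exact h1)
          · exact Or.inr (by rw [← h]; exact h1)
      · right
        exact bound_signs' l hl he hw
    · right
      push Not at hl
      obtain ⟨x, hx, hx1, hx2⟩ := hl
      have hxx : 2 ≤ |x| := by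
        have : x ≠ 0 := fun h => h0 (h ▸ hx)
        rcases abs_cases x with ⟨h, _⟩ | ⟨h, _⟩ <;> omega
      have h1 : 2 ≤ |(K l).leadingCoeff| := by
        rw [leadingCoeff_K h0, abs_mul, abs_pow, abs_neg, abs_one, one_pow, one_mul]
        have hd : x ∣ l.prod := List.dvd_prod hx
        have hp : l.prod ≠ 0 := by
          rw [Ne, List.prod_eq_zero_iff]; exact h0
        obtain ⟨y, hy⟩ := hd
        have hy0 : y ≠ 0 := by rintro rfl; exact hp (by rw [hy, mul_zero])
        rw [hy, abs_mul]
        have := Int.one_le_abs hy0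
        nlinarith [abs_nonneg x]
      have h2 : ‖(toC (K l)).leadingCoeff‖ ≤ (toC (K l)).mahlerMeasure :=
        leadingCoeff_le_mahlerMeasure _
      rw [leadingCoeff_map_of_injective hinj] at h2
      simp only [eq_intCast, Complex.norm_intCast] at h2
      have h3 : (2 : ℝ) ≤ |((K l).leadingCoeff : ℝ)| := by exact_mod_cast h1
      linarith
  constructor
  · constructor
    · intro h1
      rcases key with h | h
      · exact h.1
      · rw [h1] at h; norm_num at h
    · rintro (h | h)
      · have hrep : l = List.replicate l.length 1 := by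
          rw [List.eq_replicate_iff]; exact ⟨rfl, h⟩
        rw [hrep]; exact measure_const 1 (Or.inl rfl) _
      · have hrep : l = List.replicate l.length (-1) := by
          rw [List.eq_replicate_iff]; exact ⟨rfl, h⟩
        rw [hrep]; exact measure_const (-1) (Or.inr rfl) _
  · rcases key with h | h
    · exact Or.inl h.2
    · exact Or.inr h

end Pool.Agent.Helper86.TwoBridge
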