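import Mathlib

/-!
Reflections on the solutions of a three term recurrence: the ping-pong argument.
-/

namespace Pool.Agent.Helper86.TwoBridge

open Real

/-- sequences of the form `A sin (m θ) + B cos (m θ)` -/
def IsSol (θ : ℝ) (f : ℤ → ℝ) : Prop :=
  ∃ A B : ℝ, ∀ m : ℤ, f m = A * sin (m * θ) + B * cos (m * θ)

/-- the reflection with `J a f a = - f a` and `J a f (a + 1) = f (a + 1)` -/
noncomputable def J (θ : ℝ) (a : ℤ) (f : ℤ → ℝ) : ℤ → ℝ := fun m =>
  (f (a + 1) * sin ((m - a) * θ) + f a * sin ((m - a - 1) * θ)) / sin θ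

lemma IsSol.formula {θ : ℝ} {f : ℤ → ℝ} (hf : IsSol θ f) (a m : ℤ) :
    f m * sin θ = f (a + 1) * sin ((m - a) * θ) - f a * sin ((m - a - 1) * θ) := by
  obtain ⟨A, B, h⟩ := hf
  rw [h m, h (a + 1), h a]
  push_cast
  have e1 : ((a : ℝ) + 1) * θ = a * θ + θ := by ring
  have e2 : ((m : ℝ) - a) * θ = m * θ - a * θ := by ring
  have e3 : ((m : ℝ) - a - 1) * θ = m * θ - a * θ - θ := by ring
  rw [e1, e2, e3, sin_add, cos_add, sin_sub (m * θ - a * θ) θ, sin_sub, cos_sub]
  linear_combination (-(A * sin (m * θ) + B * cos (m * θ)) * sin θ) * sin_sq_add_cos_sq (a * θ)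

lemma IsSol.ext {θ : ℝ} (hs : sin θ ≠ 0) {f g : ℤ → ℝ} (hf : IsSol θ f) (hg : IsSol θ g) (a : ℤ)
    (h0 : f a = g a) (h1 : f (a + 1) = g (a + 1)) : f = g := by
  funext m
  have := hf.formula a m
  have h2 := hg.formula a m
  rw [h0, h1, ← h2] at this
  exact mul_right_cancel₀ hs this

lemma isSol_J {θ : ℝ} {f : ℤ → ℝ} (a : ℤ) : IsSol θ (J θ a f) := by
  refine ⟨(f (a + 1) * cos (a * θ) + f a * cos (a * θ + θ)) / sin θ,
    -(f (a + 1) * sin (a * θ) + f a * sin (a * θ + θ)) / sin θ, fun m => ?_⟩
  unfold J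
  have e2 : ((m : ℝ) - a) * θ = m * θ - a * θ := by ring
  have e3 : ((m : ℝ) - a - 1) * θ = m * θ - (a * θ + θ) := by ring
  rw [e2, e3, sin_sub, sin_sub]
  ring

lemma J_self {θ : ℝ} (hs : sin θ ≠ 0) (f : ℤ → ℝ) (a : ℤ) : J θ a f a = - f a := by
  unfold J
  have e : ((a : ℝ) - a - 1) * θ = -θ := by ring
  rw [e, sin_neg, sub_self, zero_mul, sin_zero]
  field_simp
  ring

lemma J_succ {θ : ℝ} (hs : sin θ ≠ 0) (f : ℤ → ℝ) (a : ℤ) : J θ a f (a + 1) = f (a + 1) := by
  unfold J
  push_cast
  have e : ((a : ℝ) + 1 - a - 1) * θ = 0 := by ring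
  have e' : ((a : ℝ) + 1 - a) * θ = θ := by ring
  rw [e, e', sin_zero]
  field_simp
  ring

lemma J_J {θ : ℝ} (hs : sin θ ≠ 0) {f : ℤ → ℝ} (hf : IsSol θ f) (a : ℤ) :
    J θ a (J θ a f) = f := by
  refine IsSol.ext hs (isSol_J a) hf a ?_ ?_
  · rw [J_self hs, J_self hs, neg_neg]
  · rw [J_succ hs, J_succ hs]

lemma IsSol.shift {d : ℕ} (hd : 0 < d) {f : ℤ → ℝ} (hf : IsSol (π / d) f) (a k : ℤ) :
    f (a + k * d) = (-1) ^ k * f a := by
  obtain ⟨A, B, h⟩ := hf
  have hd' : (d : ℝ) ≠ 0 := by positivity
  rw [h, h]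
  push_cast
  have e : ((a : ℝ) + k * d) * (π / d) = a * (π / d) + k * π := by
    field_simp
  rw [e, sin_add_int_mul_pi, cos_add_int_mul_pi]
  ring

lemma J_congr {d : ℕ} (hd : 0 < d) {f : ℤ → ℝ} (hf : IsSol (π / d) f) {a b : ℤ}
    (h : a ≡ b [ZMOD d]) : J (π / d) a f = J (π / d) b f := by
  obtain ⟨k, hk⟩ := (Int.modEq_iff_dvd.1 h)
  have hb : b = a + k * d := by linarith
  subst hb
  have hd' : (d : ℝ) ≠ 0 := by positivity
  funext m
  unfold J
  have e0 : a + k * d + 1 = (a + 1) + k * d := by ring
  rw [e0, hf.shift hd, hf.shift hd]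
  push_cast
  have e1 : ((m : ℝ) - (a + k * d)) * (π / d) = (m - a) * (π / d) - k * π := by
    field_simp
    ring
  have e2 : ((m : ℝ) - (a + k * d) - 1) * (π / d) = (m - a - 1) * (π / d) - k * π := by
    field_simp
    ring
  rw [e1, e2, sin_sub_int_mul_pi, sin_sub_int_mul_pi]
  have h1 : ((-1 : ℝ)) ^ k * (-1) ^ k = 1 := by
    rw [← mul_zpow]; norm_num
  congr 1
  linear_combination (-(f (a + 1) * sin ((m - a) * (π / d))) - f a * sin ((m - a - 1) * (π / d))) * h1

/-- the sine sequence -/
noncomputable def f0 (θ : ℝ) : ℤ → ℝ := fun m => sin (m * θ)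

lemma isSol_f0 (θ : ℝ) : IsSol θ (f0 θ) := ⟨1, 0, fun m => by simp [f0]⟩

lemma IsSol.neg {θ : ℝ} {f : ℤ → ℝ} (hf : IsSol θ f) : IsSol θ (fun m => - f m) := by
  obtain ⟨A, B, h⟩ := hf
  exact ⟨-A, -B, fun m => by simp only [h]; ring⟩

lemma IsSol.smul {θ : ℝ} {f : ℤ → ℝ} (hf : IsSol θ f) (c : ℝ) : IsSol θ (fun m => c * f m) := by
  obtain ⟨A, B, h⟩ := hf
  exact ⟨c * A, c * B, fun m => by simp only [h]; ring⟩

lemma J_smul {θ : ℝ} (a : ℤ) (f : ℤ → ℝ) (c : ℝ) :
    J θ a (fun m => c * f m) = fun m => c * J θ a f m := by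
  funext m; unfold J; ring

lemma J_zero_f0 {θ : ℝ} (hs : sin θ ≠ 0) : J θ 0 (f0 θ) = f0 θ := by
  refine IsSol.ext hs (isSol_J 0) (isSol_f0 θ) 0 ?_ ?_
  · rw [J_self hs]; simp [f0]
  · rw [J_succ hs]

lemma J_neg_one_f0 {θ : ℝ} (hs : sin θ ≠ 0) : J θ (-1) (f0 θ) = fun m => (-1) * f0 θ m := by
  refine IsSol.ext hs (isSol_J (-1)) ((isSol_f0 θ).smul (-1)) (-1) ?_ ?_
  · rw [J_self hs]; ring
  · rw [J_succ hs]; simp [f0]

/-- positivity of products of consecutive sines -/
lemma sin_mul_sin_pos {d : ℕ} (hd : 0 < d) (m : ℤ) (h0 : ¬ (d : ℤ) ∣ m) (h1 : ¬ (d : ℤ) ∣ (m + 1)) :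
    0 < sin (m * (π / d)) * sin ((m + 1) * (π / d)) := by
  have hd' : (0 : ℝ) < d := by positivity
  have hdz : (0 : ℤ) < d := by exact_mod_cast hd
  obtain ⟨r, q, hm, hr0, hrd⟩ : ∃ r q : ℤ, m = r + q * d ∧ 0 ≤ r ∧ r < d :=
    ⟨m % d, m / d, by have := Int.emod_add_mul_ediv m d; linarith [mul_comm (d:ℤ) (m / d)],
      Int.emod_nonneg _ hdz.ne', Int.emod_lt_of_pos _ hdz⟩
  have hr1 : 0 < r := by
    rcases hr0.lt_or_eq with h | h
    · exact h
    · exact absurd ⟨q, by rw [hm, ← h]; ring⟩ h0
  have hr2 : r + 1 < d := by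
    rcases (Int.add_one_le_iff.2 hrd).lt_or_eq with h | h
    · exact h
    · exact absurd ⟨q + 1, by rw [hm]; linear_combination h⟩ h1
  subst hm
  push_cast
  have e1 : ((r : ℝ) + q * d) * (π / d) = r * (π / d) + q * π := by field_simp
  have e2 : ((r : ℝ) + q * d + 1) * (π / d) = (r + 1) * (π / d) + q * π := by field_simp; ring
  rw [e1, e2, sin_add_int_mul_pi, sin_add_int_mul_pi]
  have h1' : ((-1 : ℝ)) ^ q * (-1) ^ q = 1 := by
    rw [← mul_zpow]; norm_num
  have hpos : ∀ s : ℤ, 0 < s → s < d → 0 < sin (s * (π / d)) := by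
    intro s hs0 hsd
    have hs0' : (0 : ℝ) < s := by exact_mod_cast hs0
    have hsd' : (s : ℝ) < d := by exact_mod_cast hsd
    apply sin_pos_of_pos_of_lt_pi
    · positivity
    · have : (s : ℝ) * (π / d) = (s / d) * π := by ring
      rw [this]
      have h2 : (s : ℝ) / d < 1 := by rw [div_lt_one hd']; exact hsd'
      nlinarith [pi_pos]
  have p1 := hpos r hr1 (by linarith)
  have p2 := hpos (r + 1) (by linarith) hr2
  push_cast at p2
  calc (0 : ℝ) < sin (r * (π / d)) * sin ((r + 1) * (π / d)) := mul_pos p1 p2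
    _ = _ := by linear_combination (-(sin (r * (π / d)) * sin ((r + 1) * (π / d)))) * h1'

lemma sin_mul_sin_nonneg {d : ℕ} (hd : 0 < d) (m : ℤ) :
    0 ≤ sin (m * (π / d)) * sin ((m + 1) * (π / d)) := by
  have hd' : (d : ℝ) ≠ 0 := by positivity
  by_cases h0 : (d : ℤ) ∣ m
  · obtain ⟨k, hk⟩ := h0
    have : (m : ℝ) * (π / d) = k * π := by
      rw [hk]; push_cast; field_simp
    rw [this, sin_int_mul_pi, zero_mul]
  · by_cases h1 : (d : ℤ) ∣ (m + 1)
    · obtain ⟨k, hk⟩ := h1
      have : ((m : ℝ) + 1) * (π / d) = k * π := by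
        have : ((m : ℝ) + 1) = d * k := by exact_mod_cast hk
        rw [this]; field_simp
      rw [this, sin_int_mul_pi, mul_zero]
    · exact (sin_mul_sin_pos hd m h0 h1).le

/-- a sign change of a solution in `[a, a+1]` excludes the others -/
lemma IsSol.pos_of_neg {d : ℕ} (hd : 2 ≤ d) {f : ℤ → ℝ} (hf : IsSol (π / d) f) {a b : ℤ}
    (hneg : f a * f (a + 1) < 0) (hab : ¬ a ≡ b [ZMOD d]) : 0 < f b * f (b + 1) := by
  have hd0 : 0 < d := by omega
  have hd' : (0 : ℝ) < d := by positivity
  have hdz : (0 : ℤ) < d := by exact_mod_cast hd0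
  have hs : 0 < sin (π / d) := by
    apply sin_pos_of_pos_of_lt_pi
    · positivity
    · rw [div_lt_iff₀ hd']
      have : (2 : ℝ) ≤ d := by exact_mod_cast hd
      nlinarith [pi_pos]
  -- reduce to b = a + r, 1 ≤ r ≤ d - 1
  obtain ⟨r, q, hm, hr0, hrd⟩ : ∃ r q : ℤ, b - a = r + q * d ∧ 0 ≤ r ∧ r < d :=
    ⟨(b - a) % d, (b - a) / d, by
      have := Int.emod_add_mul_ediv (b - a) d; linarith [mul_comm (d:ℤ) ((b - a) / d)],
      Int.emod_nonneg _ hdz.ne', Int.emod_lt_of_pos _ hdz⟩
  have hr1 : 0 < r := by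
    rcases hr0.lt_or_eq with h | h
    · exact h
    · exact absurd (Int.modEq_iff_dvd.2 ⟨q, by rw [hm, ← h]; ring⟩) hab
  have hb : b = (a + r) + q * d := by linarith
  have hb1 : b + 1 = (a + r + 1) + q * d := by linarith
  have h1' : ((-1 : ℝ)) ^ q * (-1) ^ q = 1 := by
    rw [← mul_zpow]; norm_num
  rw [hb, show (a + r) + q * d + 1 = (a + r + 1) + q * d by ring, hf.shift hd0, hf.shift hd0]
  have key : 0 < f (a + r) * f (a + r + 1) := by
    have F1 := hf.formula a (a + r)
    have F2 := hf.formula a (a + r + 1)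
    push_cast at F1 F2
    have e1 : ((a : ℝ) + r - a) = r := by ring
    have e2 : ((a : ℝ) + r + 1 - a) = r + 1 := by ring
    have e3 : ((r : ℝ) + 1 - 1) = r := by ring
    rw [e1] at F1
    rw [e2, e3] at F2
    have hnn : ∀ s : ℤ, 0 ≤ s → s ≤ d → 0 ≤ sin (s * (π / d)) := by
      intro s hs0 hsd
      have hs0' : (0 : ℝ) ≤ s := by exact_mod_cast hs0
      have hsd' : (s : ℝ) ≤ d := by exact_mod_cast hsd
      apply sin_nonneg_of_nonneg_of_le_pi
      · positivity
      · have : (s : ℝ) * (π / d) = (s / d) * π := by ring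
        rw [this]
        have h2 : (s : ℝ) / d ≤ 1 := by rw [div_le_one hd']; exact hsd'
        nlinarith [pi_pos]
    have hpos : 0 < sin (r * (π / d)) := by
      have hs0' : (0 : ℝ) < r := by exact_mod_cast hr1
      have hsd' : (r : ℝ) < d := by exact_mod_cast hrd
      apply sin_pos_of_pos_of_lt_pi
      · positivity
      · have : (r : ℝ) * (π / d) = (r / d) * π := by ring
        rw [this]
        have h2 : (r : ℝ) / d < 1 := by rw [div_lt_one hd']; exact hsd'
        nlinarith [pi_pos]
    have n1 := hnn (r - 1) (by linarith) (by linarith)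
    have n2 := hnn (r + 1) (by linarith) (by linarith)
    push_cast at n1 n2
    -- signs
    rcases mul_neg_iff.1 hneg with ⟨ha, ha1⟩ | ⟨ha, ha1⟩
    · have p1 : f (a + r) * sin (π / d) < 0 := by
        rw [F1]; nlinarith
      have p2 : f (a + r + 1) * sin (π / d) < 0 := by
        rw [F2]; nlinarith
      have q1 : f (a + r) < 0 := by
        by_contra h; push Not at h; nlinarith
      have q2 : f (a + r + 1) < 0 := by
        by_contra h; push Not at h; nlinarith
      exact mul_pos_of_neg_of_neg q1 q2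
    · have p1 : 0 < f (a + r) * sin (π / d) := by
        rw [F1]; nlinarith
      have p2 : 0 < f (a + r + 1) * sin (π / d) := by
        rw [F2]; nlinarith
      have q1 : 0 < f (a + r) := by
        by_contra h; push Not at h; nlinarith
      have q2 : 0 < f (a + r + 1) := by
        by_contra h; push Not at h; nlinarith
      exact mul_pos q1 q2
  calc (0 : ℝ) < f (a + r) * f (a + r + 1) := key
    _ = _ := by linear_combination (-(f (a + r) * f (a + r + 1))) * h1'

/-- a solution with a zero has no sign change between consecutive integers -/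
lemma IsSol.nonneg_of_zero {d : ℕ} (hd : 2 ≤ d) {f : ℤ → ℝ} (hf : IsSol (π / d) f) {N : ℤ}
    (hN : f N = 0) (a : ℤ) : 0 ≤ f a * f (a + 1) := by
  have hd0 : 0 < d := by omega
  have hd' : (0 : ℝ) < d := by positivity
  have hs : 0 < sin (π / d) := by
    apply sin_pos_of_pos_of_lt_pi
    · positivity
    · rw [div_lt_iff₀ hd']
      have : (2 : ℝ) ≤ d := by exact_mod_cast hd
      nlinarith [pi_pos]
  have F1 := hf.formula N a
  have F2 := hf.formula N (a + 1)
  rw [hN, zero_mul, sub_zero] at F1 F2
  have h := sin_mul_sin_nonneg hd0 (a - N)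
  push_cast at h F2
  have e : ((a : ℝ) + 1 - N) = a - N + 1 := by ring
  rw [e] at F2
  have h3 : (f a * f (a + 1)) * (sin (π / d)) ^ 2 =
      f (N + 1) ^ 2 * (sin ((a - N) * (π / d)) * sin ((a - N + 1) * (π / d))) := by
    calc _ = (f a * sin (π / d)) * (f (a + 1) * sin (π / d)) := by ring
      _ = _ := by rw [F1, F2]; ring
  have h4 : 0 ≤ (f a * f (a + 1)) * (sin (π / d)) ^ 2 := by rw [h3]; positivity
  by_contra hc
  push Not at hc
  have : (f a * f (a + 1)) * (sin (π / d)) ^ 2 < 0 := mul_neg_of_neg_of_pos hc (by positivity)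
  linarith

/-- the product of the reflections of a list, the last one acting first -/
noncomputable def act (θ : ℝ) (W : List ℤ) (f : ℤ → ℝ) : ℤ → ℝ := W.foldr (J θ) f

@[simp] lemma act_nil (θ : ℝ) (f : ℤ → ℝ) : act θ [] f = f := rfl
@[simp] lemma act_cons (θ : ℝ) (a : ℤ) (W : List ℤ) (f : ℤ → ℝ) :
    act θ (a :: W) f = J θ a (act θ W f) := rfl

lemma act_append (θ : ℝ) (W W' : List ℤ) (f : ℤ → ℝ) :
    act θ (W ++ W') f = act θ W (act θ W' f) := by
  unfold act; rw [List.foldr_append]

lemma isSol_act {θ : ℝ} {f : ℤ → ℝ} (hf : IsSol θ f) (W : List ℤ) : IsSol θ (act θ W f) := by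
  cases W with
  | nil => exact hf
  | cons a W => exact isSol_J a

/-- the alternating word of length `k` in the letters `0` and `-1`, beginning with `0` if `e` -/
def alt : Bool → ℕ → List ℤ
  | _, 0 => []
  | e, k + 1 => (if e then 0 else -1) :: alt (!e) k

/-- `W` reduces modulo `d` to the word `u`, by deletions of pairs of equal neighbours -/
inductive Good (d : ℕ) (u : List ℤ) : List ℤ → Prop
  | base {W : List ℤ} : List.Forall₂ (fun a b => a ≡ b [ZMOD d]) W u → Good d u W
  | step {A B : List ℤ} {a a' : ℤ} : a ≡ a' [ZMOD d] → Good d u (A ++ B) →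
      Good d u (A ++ a :: a' :: B)

lemma Good.mono {d d' : ℕ} (h : d' ∣ d) {u W : List ℤ} (hg : Good d u W) : Good d' u W := by
  have hz : (d' : ℤ) ∣ d := by exact_mod_cast h
  induction hg with
  | base hf => exact Good.base (hf.imp fun a b hab => hab.of_dvd hz)
  | step hab _ ih => exact Good.step (hab.of_dvd hz) ih

lemma Good.act_eq {d : ℕ} (hd : 2 ≤ d) {u W : List ℤ} (hg : Good d u W) {f : ℤ → ℝ}
    (hf : IsSol (π / d) f) : act (π / d) W f = act (π / d) u f := by
  have hd0 : 0 < d := by omega
  have hd' : (0 : ℝ) < d := by positivity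
  have hs : sin (π / d) ≠ 0 := by
    apply ne_of_gt
    apply sin_pos_of_pos_of_lt_pi
    · positivity
    · rw [div_lt_iff₀ hd']
      have : (2 : ℝ) ≤ d := by exact_mod_cast hd
      nlinarith [pi_pos]
  induction hg with
  | base h =>
    clear * - h hf hd0
    induction h with
    | nil => rfl
    | cons hab _ ih =>
      rw [act_cons, act_cons, ih, J_congr hd0 (isSol_act hf _) hab]
  | @step A B a a' hab hg ih =>
    rw [← ih, act_append, act_append, act_cons, act_cons,
      J_congr hd0 (isSol_J a') hab, J_J hs (isSol_act hf B)]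

/-- reduced words: either of the form `alt e k`, or in the arc of the first letter -/
lemma reduced_cases {d : ℕ} (hd : 3 ≤ d) (W : List ℤ)
    (hred : W.IsChain fun a b => ¬ a ≡ b [ZMOD d]) :
    (∃ e k, List.Forall₂ (fun a b => a ≡ b [ZMOD d]) W (alt e k) ∧
      (act (π / d) W (f0 (π / d)) = f0 (π / d) ∨
        act (π / d) W (f0 (π / d)) = fun m => (-1) * f0 (π / d) m)) ∨
    (∃ a W', W = a :: W' ∧ act (π / d) W (f0 (π / d)) a * act (π / d) W (f0 (π / d)) (a + 1) < 0) := by
  have hd0 : 0 < d := by omega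
  have hd' : (0 : ℝ) < d := by positivity
  have hs : sin (π / d) ≠ 0 := by
    apply ne_of_gt
    apply sin_pos_of_pos_of_lt_pi
    · positivity
    · rw [div_lt_iff₀ hd']
      have : (3 : ℝ) ≤ d := by exact_mod_cast hd
      nlinarith [pi_pos]
  induction W with
  | nil => exact Or.inl ⟨true, 0, by simp [alt], Or.inl rfl⟩
  | cons a W ih =>
    have hred' : W.IsChain fun a b => ¬ a ≡ b [ZMOD d] := hred.tail
    rcases ih hred' with ⟨e, k, hW, hact⟩ | ⟨b, W', hW, hneg⟩
    · by_cases ha0 : a ≡ 0 [ZMOD d]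
      · left
        cases k with
        | zero =>
          have : W = [] := by simpa [alt] using hW
          subst this
          refine ⟨true, 1, by simpa [alt] using ha0, Or.inl ?_⟩
          rw [act_cons, act_nil, J_congr hd0 (isSol_f0 _) ha0, J_zero_f0 hs]
        | succ k =>
          cases W with
          | nil => simp [alt] at hW
          | cons c W =>
            have hc := (List.forall₂_cons.1 hW).1
            have hac : ¬ a ≡ c [ZMOD d] := by
              rw [List.isChain_cons_cons] at hred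
              exact hred.1
            have he : e = false := by
              by_contra he
              have : e = true := by simpa using he
              subst this
              simp only [if_true] at hc
              exact hac (ha0.trans hc.symm)
            subst he
            refine ⟨true, k + 2, ?_, ?_⟩
            · exact List.Forall₂.cons (by simpa using ha0) hW
            · rcases hact with h | h
              · left
                rw [act_cons, h, J_congr hd0 (isSol_f0 _) ha0, J_zero_f0 hs]
              · right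
                rw [act_cons, h, J_smul, J_congr hd0 (isSol_f0 _) ha0, J_zero_f0 hs]
      · by_cases ha1 : a ≡ -1 [ZMOD d]
        · left
          cases k with
          | zero =>
            have : W = [] := by simpa [alt] using hW
            subst this
            refine ⟨false, 1, by simpa [alt] using ha1, Or.inr ?_⟩
            rw [act_cons, act_nil, J_congr hd0 (isSol_f0 _) ha1, J_neg_one_f0 hs]
          | succ k =>
            cases W with
            | nil => simp [alt] at hW
            | cons c W =>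
              have hc := (List.forall₂_cons.1 hW).1
              have hac : ¬ a ≡ c [ZMOD d] := by
                rw [List.isChain_cons_cons] at hred
                exact hred.1
              have he : e = true := by
                by_contra he
                have : e = false := by simpa using he
                subst this
                simp at hc
                exact hac (ha1.trans hc.symm)
              subst he
              refine ⟨false, k + 2, ?_, ?_⟩
              · exact List.Forall₂.cons (by simpa using ha1) hW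
              · rcases hact with h | h
                · right
                  rw [act_cons, h, J_congr hd0 (isSol_f0 _) ha1, J_neg_one_f0 hs]
                · left
                  rw [act_cons, h, J_smul, J_congr hd0 (isSol_f0 _) ha1, J_neg_one_f0 hs]
                  funext m
                  ring
        · right
          refine ⟨a, W, rfl, ?_⟩
          have h0 : ¬ (d : ℤ) ∣ a := fun h => ha0 (Int.modEq_zero_iff_dvd.2 h)
          have h1 : ¬ (d : ℤ) ∣ a + 1 := fun h => ha1 (by
            rw [Int.modEq_iff_dvd]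
            obtain ⟨k, hk⟩ := h
            exact ⟨-k, by linarith⟩)
          have hp := sin_mul_sin_pos hd0 a h0 h1
          rw [act_cons, J_self hs, J_succ hs]
          rcases hact with h | h
          · rw [h]; simp only [f0]; push_cast; linarith
          · rw [h]; simp only [f0]; push_cast; linarith
    · right
      refine ⟨a, W, rfl, ?_⟩
      have hab : ¬ b ≡ a [ZMOD d] := by
        rw [hW, List.isChain_cons_cons] at hred
        exact fun h => hred.1 h.symm
      have := IsSol.pos_of_neg (by omega) (isSol_act (isSol_f0 _) W) hneg hab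
      rw [act_cons, J_self hs, J_succ hs]
      linarith

/-- soundness: if the transformed sine sequence vanishes at `N` then `d ∣ N` and the word is good -/
lemma good_of_zero {d : ℕ} (hd : 3 ≤ d) (N : ℤ) (W : List ℤ)
    (h0 : act (π / d) W (f0 (π / d)) N = 0) : (d : ℤ) ∣ N ∧ ∃ e k, Good d (alt e k) W := by
  have hd0 : 0 < d := by omega
  have hd' : (0 : ℝ) < d := by positivity
  have hs : sin (π / d) ≠ 0 := by
    apply ne_of_gt
    apply sin_pos_of_pos_of_lt_pi
    · positivity
    · rw [div_lt_iff₀ hd']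
      have : (3 : ℝ) ≤ d := by exact_mod_cast hd
      nlinarith [pi_pos]
  induction hn : W.length using Nat.strong_induction_on generalizing W with
  | _ n ih =>
    by_cases hred : W.IsChain fun a b => ¬ a ≡ b [ZMOD d]
    · rcases reduced_cases hd W hred with ⟨e, k, hW, hact⟩ | ⟨a, W', -, hneg⟩
      · refine ⟨?_, e, k, Good.base hW⟩
        have hz : sin (N * (π / d)) = 0 := by
          rcases hact with h | h
          · rw [h] at h0; exact h0
          · rw [h] at h0; simpa [f0] using h0
        obtain ⟨k, hk⟩ := sin_eq_zero_iff.1 hz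
        refine ⟨k, ?_⟩
        have hpi := pi_pos.ne'
        field_simp at hk
        have : (N : ℝ) = d * k := by linarith
        exact_mod_cast this
      · have := IsSol.nonneg_of_zero (by omega) (isSol_act (isSol_f0 _) W) h0 a
        linarith
    · -- there is a reducible pair
      have : ∃ A B : List ℤ, ∃ a a' : ℤ, W = A ++ a :: a' :: B ∧ a ≡ a' [ZMOD d] := by
        clear * - hred
        induction W with
        | nil => exact absurd List.IsChain.nil hred
        | cons a W ih =>
          cases W with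
          | nil => exact absurd (List.IsChain.singleton a) hred
          | cons b W =>
            rw [List.isChain_cons_cons, not_and_or, not_not] at hred
            rcases hred with h | h
            · exact ⟨[], W, a, b, rfl, h⟩
            · obtain ⟨A, B, c, c', hW, hc⟩ := ih h
              exact ⟨a :: A, B, c, c', by rw [hW]; rfl, hc⟩
      obtain ⟨A, B, a, a', hW, haa⟩ := this
      have h1 : act (π / d) (A ++ B) (f0 (π / d)) N = 0 := by
        rw [hW, act_append, act_cons, act_cons, J_congr hd0 (isSol_J a') haa,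
          J_J hs (isSol_act (isSol_f0 _) B), ← act_append] at h0
        exact h0
      obtain ⟨h2, e, k, hg⟩ := ih (A ++ B).length (by rw [← hn, hW]; simp) (A ++ B) h1 rfl
      exact ⟨h2, e, k, by rw [hW]; exact Good.step haa hg⟩

/-- the solution vanishing at `1` -/
noncomputable def f1 (θ : ℝ) : ℤ → ℝ := fun m => sin ((m - 1) * θ)

lemma isSol_f1 (θ : ℝ) : IsSol θ (f1 θ) := by
  refine ⟨cos θ, - sin θ, fun m => ?_⟩
  unfold f1
  have e : ((m : ℝ) - 1) * θ = m * θ - θ := by ring
  rw [e, sin_sub]; ring

/-- the action on the integers -/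
def kap : List ℤ → ℤ
  | [] => 0
  | a :: u => if a = 0 then - kap u else 1 - kap u

lemma kap_alt (e : Bool) (k : ℕ) :
    kap (alt e k) = if e then -((k / 2 : ℕ) : ℤ) else (((k + 1) / 2 : ℕ) : ℤ) := by
  induction k generalizing e with
  | zero => cases e <;> simp [alt, kap]
  | succ k ih =>
    cases e
    · simp only [alt, kap, ih]
      simp
      omega
    · simp only [alt, kap, ih]
      simp

lemma act_alt_f1 {θ : ℝ} (hs : sin θ ≠ 0) (e : Bool) (k : ℕ) :
    ∃ ε : ℝ, (ε = 1 ∨ ε = -1) ∧ act θ (alt e k) (f1 θ) =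
      fun m => ε * (f1 θ m - 4 * cos θ * kap (alt e k) * f0 θ m) := by
  induction k generalizing e with
  | zero => exact ⟨1, Or.inl rfl, by funext m; simp [alt, kap]⟩
  | succ k ih =>
    obtain ⟨ε, hε, h⟩ := ih (!e)
    have hsol : ∀ (x y : ℝ), IsSol θ (fun m => x * (f1 θ m - y * f0 θ m)) := by
      intro x y
      obtain ⟨A, B, h1⟩ := isSol_f1 θ
      obtain ⟨A', B', h2⟩ := isSol_f0 θ
      exact ⟨x * (A - y * A'), x * (B - y * B'), fun m => by simp only [h1, h2]; ring⟩
    cases e
    · refine ⟨ε, hε, ?_⟩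
      simp only [alt, act_cons, kap, Bool.not_false] at h ⊢
      rw [h]
      simp only [Bool.false_eq_true, if_false, show ¬ ((-1 : ℤ) = 0) by norm_num]
      refine IsSol.ext hs (isSol_J _) (hsol _ _) (-1) ?_ ?_
      · rw [J_self hs]
        simp only [f1, f0]
        push_cast
        have e1 : ((-1 : ℝ) - 1) * θ = -(2 * θ) := by ring
        have e2 : (-1 : ℝ) * θ = - θ := by ring
        rw [e1, e2, sin_neg, sin_neg, sin_two_mul]
        ring
      · rw [J_succ hs]
        simp [f1, f0]
    · refine ⟨-ε, by rcases hε with h | h <;> simp [h], ?_⟩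
      simp only [alt, act_cons, kap, Bool.not_true] at h ⊢
      rw [h]
      simp only [if_true]
      refine IsSol.ext hs (isSol_J _) (hsol _ _) 0 ?_ ?_
      · rw [J_self hs]
        simp [f1, f0]
      · rw [J_succ hs]
        simp [f1, f0]

lemma Good.length_mod {d : ℕ} {u W : List ℤ} (hg : Good d u W) : W.length % 2 = u.length % 2 := by
  induction hg with
  | base h => rw [h.length_eq]
  | step _ _ ih => rw [← ih]; simp only [List.length_append, List.length_cons]; omega

lemma length_alt (e : Bool) (k : ℕ) : (alt e k).length = k := by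
  induction k generalizing e with
  | zero => simp [alt]
  | succ k ih => simp [alt, ih]

/-- the alternating word to which a word reduces is unique -/
lemma Good.unique {d : ℕ} (hd : 3 ≤ d) {e e' : Bool} {k k' : ℕ} {W : List ℤ}
    (h : Good d (alt e k) W) (h' : Good d (alt e' k') W) : alt e k = alt e' k' := by
  have hd0 : 0 < d := by omega
  have hd' : (0 : ℝ) < d := by positivity
  have hd3 : (3 : ℝ) ≤ d := by exact_mod_cast hd
  have hs : sin (π / d) ≠ 0 := by
    apply ne_of_gt
    apply sin_pos_of_pos_of_lt_pi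
    · positivity
    · rw [div_lt_iff₀ hd']
      nlinarith [pi_pos]
  have hc : cos (π / d) ≠ 0 := by
    apply ne_of_gt
    apply cos_pos_of_mem_Ioo
    constructor
    · have : 0 < π / d := by positivity
      linarith [pi_pos]
    · rw [div_lt_div_iff_of_pos_left pi_pos hd' (by norm_num)]
      linarith
  have hl := h.length_mod.symm.trans h'.length_mod
  rw [length_alt, length_alt] at hl
  have h1 := (h.act_eq (by omega) (isSol_f1 (π / d))).symm.trans
    (h'.act_eq (by omega) (isSol_f1 (π / d)))
  obtain ⟨ε, hε, h2⟩ := act_alt_f1 hs e k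
  obtain ⟨ε', hε', h3⟩ := act_alt_f1 hs e' k'
  rw [h2, h3] at h1
  have c0 := congrFun h1 0
  have c1 := congrFun h1 1
  simp [f0, f1] at c0 c1
  have hee : ε = ε' := by
    rcases c0 with h | h
    · exact h
    · exact absurd h hs
  have hε0 : ε' ≠ 0 := by rcases hε' with h | h <;> rw [h] <;> norm_num
  have hk : kap (alt e k) = kap (alt e' k') := by
    subst hee
    have h5 : ε * (4 * cos (π / d)) * sin (π / d) * ((kap (alt e k) : ℝ) - kap (alt e' k')) = 0 := by
      linear_combination c1
    have h6 : ε * (4 * cos (π / d)) * sin (π / d) ≠ 0 := by positivity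
    rcases mul_eq_zero.1 h5 with h | h
    · exact absurd h h6
    · exact_mod_cast sub_eq_zero.1 h
  rw [kap_alt, kap_alt] at hk
  cases e <;> cases e' <;> simp at hk
  · have : k = k' := by omega
    rw [this]
  · have h0 : k = 0 ∧ k' = 0 := by omega
    rw [h0.1, h0.2]; rfl
  · have h0 : k = 0 ∧ k' = 0 := by omega
    rw [h0.1, h0.2]; rfl
  · have : k = k' := by omega
    rw [this]

end Pool.Agent.Helper86.TwoBridge
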