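import Pool.Agent.Helper86.TwoBridge.Count

/-!
The polynomials: recursion, reduction modulo two, zeros, and the lower bound for the measure.
-/

namespace Pool.Agent.Helper86.TwoBridge

open Polynomial

/-- the continuant polynomials of linear plumbings -/
noncomputable def K : List ℤ → ℤ[X]
  | [] => 1
  | [b] => C b * (1 - X)
  | b :: b' :: l => C b * (1 - X) * K (b' :: l) + X * K l

lemma natDegree_K_le (l : List ℤ) : (K l).natDegree ≤ l.length := by
  induction l using K.induct with
  | case1 => simp [K]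
  | case2 b =>
    rw [K]
    refine (natDegree_C_mul_le _ _).trans ?_
    have : (1 - X : ℤ[X]).natDegree ≤ 1 := by
      refine (natDegree_sub_le _ _).trans ?_
      simp
    simpa using this
  | case3 b b' l ih1 ih2 =>
    rw [K]
    refine (natDegree_add_le _ _).trans (max_le ?_ ?_)
    · refine natDegree_mul_le.trans ?_
      have : (C b * (1 - X) : ℤ[X]).natDegree ≤ 1 := by
        refine (natDegree_C_mul_le _ _).trans ?_
        refine (natDegree_sub_le _ _).trans ?_
        simp
      simp only [List.length_cons] at ih1 ⊢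
      omega
    · refine natDegree_mul_le.trans ?_
      have := natDegree_X_le (R := ℤ)
      simp only [List.length_cons]
      omega

lemma coeff_K (l : List ℤ) : (K l).coeff l.length = (-1) ^ l.length * l.prod := by
  induction l using K.induct with
  | case1 => simp [K]
  | case2 b =>
    rw [K, coeff_C_mul]
    simp [coeff_one, coeff_X]
  | case3 b b' l ih1 ih2 =>
    rw [K, coeff_add]
    have h1 : (X * K l).coeff (b :: b' :: l).length = 0 := by
      simp only [List.length_cons]
      rw [coeff_X_mul]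
      apply coeff_eq_zero_of_natDegree_lt
      have := natDegree_K_le l
      omega
    have h2 : (C b * (1 - X) * K (b' :: l)).coeff (b :: b' :: l).length =
        - b * (K (b' :: l)).coeff (b' :: l).length := by
      have e : C b * (1 - X) * K (b' :: l) = C b * (K (b' :: l) - X * K (b' :: l)) := by ring
      rw [e, coeff_C_mul, coeff_sub]
      simp only [List.length_cons]
      rw [coeff_X_mul]
      have : (K (b' :: l)).coeff (l.length + 1 + 1) = 0 := by
        apply coeff_eq_zero_of_natDegree_lt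
        have := natDegree_K_le (b' :: l)
        simp only [List.length_cons] at this
        omega
      rw [this]
      ring
    rw [h1, h2, ih1]
    simp only [List.length_cons, List.prod_cons]
    ring

lemma natDegree_K {l : List ℤ} (hl : 0 ∉ l) : (K l).natDegree = l.length := by
  apply le_antisymm (natDegree_K_le l)
  apply le_natDegree_of_ne_zero
  rw [coeff_K]
  have : l.prod ≠ 0 := by
    rw [Ne, List.prod_eq_zero_iff]; exact hl
  positivity

lemma leadingCoeff_K {l : List ℤ} (hl : 0 ∉ l) : (K l).leadingCoeff = (-1) ^ l.length * l.prod := by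
  rw [leadingCoeff, natDegree_K hl, coeff_K]

/-- the congruence modulo two -/
lemma K_mod_two (l : List ℤ) (hl : ∀ b ∈ l, Odd b) :
    ∃ R : ℤ[X], 1 - X ^ (l.length + 1) = (1 - X) * K l + 2 * R := by
  induction l using K.induct with
  | case1 => exact ⟨0, by simp [K]⟩
  | case2 b =>
    obtain ⟨m, hm⟩ := hl b (by simp)
    refine ⟨X - X ^ 2 - C m * (1 - X) ^ 2, ?_⟩
    rw [K, hm]
    simp only [List.length_cons, List.length_nil, map_add, map_mul, C_1]
    rw [show (C 2 : ℤ[X]) = 2 from rfl]
    ring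
  | case3 b b' l ih1 ih2 =>
    obtain ⟨m, hm⟩ := hl b (by simp)
    obtain ⟨R1, h1⟩ := ih1 fun x hx => hl x (by simp at hx ⊢; tauto)
    obtain ⟨R2, h2⟩ := ih2 fun x hx => hl x (by simp; tauto)
    refine ⟨(1 - X) * R1 - C m * (1 - X) ^ 2 * K (b' :: l) + X * R2 + X ^ (l.length + 2)
      - X ^ (l.length + 3), ?_⟩
    rw [K, hm]
    simp only [List.length_cons, map_add, map_mul, C_1] at h1 h2 ⊢
    rw [show (C 2 : ℤ[X]) = 2 from rfl]
    have e1 : (1 - X) * K (b' :: l) = 1 - X ^ (l.length + 1 + 1) - 2 * R1 := by rw [h1]; ring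
    have e2 : (1 - X) * K l = 1 - X ^ (l.length + 1) - 2 * R2 := by rw [h2]; ring
    linear_combination (-(1 - X)) * e1 - X * e2

lemma eval_K_one (l : List ℤ) (hl : Even l.length) : (K l).eval 1 = 1 := by
  induction l using K.induct with
  | case1 => simp [K]
  | case2 b => simp at hl
  | case3 b b' l ih1 ih2 =>
    rw [K]
    simp only [eval_add, eval_mul, eval_sub, eval_one, eval_X, eval_C]
    rw [ih2 (by simp only [List.length_cons] at hl; rwa [add_assoc, Nat.even_add, iff_true_right (by decide)] at hl)]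
    ring

lemma eval_K_neg_one (l : List ℤ) (hl : Even l.length) : Odd ((K l).eval (-1)) := by
  induction l using K.induct with
  | case1 => simp [K]
  | case2 b => simp at hl
  | case3 b b' l ih1 ih2 =>
    rw [K]
    simp only [eval_add, eval_mul, eval_sub, eval_one, eval_X, eval_C]
    have := ih2 (by simp only [List.length_cons] at hl; rwa [add_assoc, Nat.even_add, iff_true_right (by decide)] at hl)
    obtain ⟨m, hm⟩ := this
    rw [hm]
    exact ⟨b * (K (b' :: l)).eval (-1) - m - 1, by ring⟩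

/-- the complex polynomial -/
noncomputable abbrev toC (f : ℤ[X]) : ℂ[X] := f.map (Int.castRingHom ℂ)

/-- the product of the values of an integer polynomial at the zeros of another one -/
lemma one_le_prod_eval (G F : ℤ[X]) (hG : |G.leadingCoeff| = 1)
    (h0 : ∀ z : ℂ, (toC G).eval z = 0 → (toC F).eval z ≠ 0) :
    1 ≤ ((toC G).roots.map fun z => ‖(toC F).eval z‖).prod := by
  have hinj : Function.Injective (Int.castRingHom ℂ) := Int.cast_injective
  have hG0 : toC G ≠ 0 := by
    rw [Ne, Polynomial.map_eq_zero_iff hinj]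
    rintro rfl
    simp at hG
  have h1 := resultant_eq_prod_eval (toC G) (toC F) (toC F).natDegree le_rfl
    (IsAlgClosed.splits (toC G))
  have h2 : resultant (toC G) (toC F) = ((resultant G F G.natDegree F.natDegree : ℤ) : ℂ) := by
    have := resultant_map_map G F G.natDegree F.natDegree (Int.castRingHom ℂ)
    rw [← natDegree_map_eq_of_injective hinj G, ← natDegree_map_eq_of_injective hinj F] at this
    rw [natDegree_map_eq_of_injective hinj G, natDegree_map_eq_of_injective hinj F] at this ⊢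
    exact this
  rw [h2] at h1
  have h3 : ‖(toC G).leadingCoeff‖ = 1 := by
    rw [leadingCoeff_map_of_injective hinj]
    simp only [eq_intCast, Complex.norm_intCast]
    exact_mod_cast hG
  have h4 : ((toC G).roots.map fun z => ‖(toC F).eval z‖).prod =
      ‖((toC G).roots.map (toC F).eval).prod‖ := by
    have := map_multiset_prod (normHom : ℂ →*₀ ℝ) ((toC G).roots.map (toC F).eval)
    rw [Multiset.map_map] at this
    exact this.symm
  have h5 : ‖((resultant G F G.natDegree F.natDegree : ℤ) : ℂ)‖ =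
      ‖((toC G).roots.map (toC F).eval).prod‖ := by
    rw [h1, norm_mul, norm_pow, h3, one_pow, one_mul]
  rw [h4, ← h5, Complex.norm_intCast]
  have h6 : resultant G F G.natDegree F.natDegree ≠ 0 := by
    intro h
    rw [h] at h5
    simp only [Int.cast_zero, norm_zero] at h5
    have := norm_eq_zero.1 h5.symm
    rw [Multiset.prod_eq_zero_iff, Multiset.mem_map] at this
    obtain ⟨z, hz, hz0⟩ := this
    exact h0 z (isRoot_of_mem_roots hz) hz0
  exact_mod_cast Int.one_le_abs h6

lemma amgm {x y : ℝ} (hx : 0 ≤ x) (hy : 0 ≤ y) : 3125 * (x ^ 4 * y) ≤ 256 * (x + y) ^ 5 := by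
  have : 256 * (x + y) ^ 5 - 3125 * (x ^ 4 * y) =
      (x - 4 * y) ^ 2 * (256 * x ^ 3 + 203 * x ^ 2 * y + 88 * x * y ^ 2 + 16 * y ^ 3) := by ring
  have h2 : 0 ≤ (x - 4 * y) ^ 2 * (256 * x ^ 3 + 203 * x ^ 2 * y + 88 * x * y ^ 2 + 16 * y ^ 3) := by
    positivity
  linarith

lemma local_bound (N : ℕ) (a : ℂ) :
    (‖a ^ (2 * N) - 1‖ ^ 2) ^ 4 * ‖a ^ (2 * N) + 1‖ ^ 2 ≤
      (262144 / 3125) * (max 1 ‖a‖ ^ N) ^ 20 := by
  set w := a ^ (2 * N) with hw
  have h1 : ‖w - 1‖ ^ 2 + ‖w + 1‖ ^ 2 = 2 * (1 + ‖w‖ ^ 2) := by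
    have := parallelogram_law_with_norm ℝ w 1
    simp only [norm_one] at this
    nlinarith [this]
  have h2 : ‖w‖ ≤ (max 1 ‖a‖ ^ N) ^ 2 := by
    rw [hw, norm_pow, ← pow_mul, mul_comm N 2]
    exact pow_le_pow_left₀ (norm_nonneg _) (le_max_right _ _) _
  have h3 : 1 ≤ (max 1 ‖a‖ ^ N) ^ 2 := by
    apply one_le_pow₀
    apply one_le_pow₀
    exact le_max_left _ _
  set μ := (max 1 ‖a‖ ^ N) ^ 2 with hμ
  have h4 : ‖w - 1‖ ^ 2 + ‖w + 1‖ ^ 2 ≤ 4 * μ ^ 2 := by
    rw [h1]
    have := norm_nonneg w
    nlinarith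
  have h5 := amgm (x := ‖w - 1‖ ^ 2) (y := ‖w + 1‖ ^ 2) (by positivity) (by positivity)
  have h6 : (‖w - 1‖ ^ 2 + ‖w + 1‖ ^ 2) ^ 5 ≤ (4 * μ ^ 2) ^ 5 :=
    pow_le_pow_left₀ (by positivity) h4 5
  have h7 : (max 1 ‖a‖ ^ N) ^ 20 = μ ^ 10 := by rw [hμ]; ring
  rw [h7]
  have h8 : (4 * μ ^ 2) ^ 5 = 1024 * μ ^ 10 := by ring
  rw [h8] at h6
  linarith

/-- **The bound of Borwein, Dobrowolski and Mossinghoff** for a factor modulo two of `X ^ N - 1`. -/
lemma bdm (N : ℕ) (hN : 0 < N) (G : ℤ[X]) (hG : |G.leadingCoeff| = 1)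
    (hru : ∀ z : ℂ, (toC G).eval z = 0 → ∀ n : ℕ, 0 < n → z ^ n ≠ 1)
    (H R : ℤ[X]) (hGH : 1 - X ^ N = G * H + 2 * R) :
    (5 : ℝ) ^ G.natDegree ≤ (toC G).mahlerMeasure ^ (4 * N) := by
  have hinj : Function.Injective (Int.castRingHom ℂ) := Int.cast_injective
  set S := (toC G).roots with hS
  have hcard : S.card = G.natDegree := by
    rw [hS, ← (IsAlgClosed.splits (toC G)).natDegree_eq_card_roots,
      natDegree_map_eq_of_injective hinj]
  have hM : (toC G).mahlerMeasure = (S.map fun a => max 1 ‖a‖).prod := by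
    rw [mahlerMeasure_eq_leadingCoeff_mul_prod_roots, leadingCoeff_map_of_injective hinj]
    have : ‖(Int.castRingHom ℂ) G.leadingCoeff‖ = 1 := by
      simp only [eq_intCast, Complex.norm_intCast]
      exact_mod_cast hG
    rw [this, one_mul]
  have hval : ∀ z ∈ S, z ^ N = 1 - 2 * (toC R).eval z := by
    intro z hz
    have hz0 : (toC G).eval z = 0 := isRoot_of_mem_roots hz
    have := congrArg (fun f : ℤ[X] => (toC f).eval z) hGH
    simp only [toC, Polynomial.map_sub, Polynomial.map_one, Polynomial.map_pow, Polynomial.map_X,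
      Polynomial.map_add, Polynomial.map_mul, eval_sub, eval_one, eval_pow, eval_X, eval_add,
      eval_mul] at this
    rw [show (toC G).eval z = (G.map (Int.castRingHom ℂ)).eval z from rfl] at hz0
    rw [hz0] at this
    simp only [Polynomial.map_ofNat, eval_ofNat, zero_mul, zero_add] at this
    linear_combination -this
  -- the two auxiliary integer polynomials
  have hF1 := one_le_prod_eval G (R * (R - 1)) hG (by
    intro z hz h
    simp only [toC, Polynomial.map_sub, Polynomial.map_one, Polynomial.map_mul, eval_sub, eval_one,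
      eval_mul] at h
    have hzS : z ∈ S := by
      rw [hS, mem_roots']
      refine ⟨?_, hz⟩
      rw [Ne, Polynomial.map_eq_zero_iff hinj]
      rintro rfl
      simp at hG
    have h1 := hval z hzS
    have h2 : z ^ (2 * N) = 1 := by
      rw [mul_comm, pow_mul, h1]
      linear_combination 4 * h
    exact hru z hz (2 * N) (by omega) h2)
  have hF2 := one_le_prod_eval G (2 * (R * (R - 1)) + 1) hG (by
    intro z hz h
    simp only [toC, Polynomial.map_sub, Polynomial.map_one, Polynomial.map_mul, Polynomial.map_add,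
      Polynomial.map_ofNat, eval_ofNat, eval_sub, eval_one, eval_mul, eval_add] at h
    have hzS : z ∈ S := by
      rw [hS, mem_roots']
      refine ⟨?_, hz⟩
      rw [Ne, Polynomial.map_eq_zero_iff hinj]
      rintro rfl
      simp at hG
    have h1 := hval z hzS
    have h2 : z ^ (4 * N) = 1 := by
      have e : z ^ (4 * N) = (z ^ N) ^ 4 := by rw [← pow_mul, mul_comm]
      have h3 : (z ^ N) ^ 2 = -1 := by rw [h1]; linear_combination 2 * h
      rw [e]
      calc (z ^ N) ^ 4 = ((z ^ N) ^ 2) ^ 2 := by ring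
        _ = 1 := by rw [h3]; norm_num
    exact hru z hz (4 * N) (by omega) h2)
  have e1 : ∀ z ∈ S, ‖z ^ (2 * N) - 1‖ = 4 * ‖(toC (R * (R - 1))).eval z‖ := by
    intro z hz
    have h1 := hval z hz
    have : z ^ (2 * N) - 1 = 4 * (toC (R * (R - 1))).eval z := by
      rw [mul_comm, pow_mul, h1]
      simp only [toC, Polynomial.map_sub, Polynomial.map_one, Polynomial.map_mul, eval_sub,
        eval_one, eval_mul]
      ring
    rw [this, norm_mul]; norm_num
  have e2 : ∀ z ∈ S, ‖z ^ (2 * N) + 1‖ = 2 * ‖(toC (2 * (R * (R - 1)) + 1)).eval z‖ := by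
    intro z hz
    have h1 := hval z hz
    have : z ^ (2 * N) + 1 = 2 * (toC (2 * (R * (R - 1)) + 1)).eval z := by
      rw [mul_comm, pow_mul, h1]
      simp only [toC, Polynomial.map_sub, Polynomial.map_one, Polynomial.map_mul,
        Polynomial.map_add, Polynomial.map_ofNat, eval_ofNat, eval_sub, eval_one, eval_mul,
        eval_add]
      ring
    rw [this, norm_mul]; norm_num
  have p1 : (S.map fun z => ‖z ^ (2 * N) - 1‖).prod =
      4 ^ G.natDegree * (S.map fun z => ‖(toC (R * (R - 1))).eval z‖).prod := by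
    rw [Multiset.map_congr rfl e1, Multiset.prod_map_mul, Multiset.map_const',
      Multiset.prod_replicate, hcard]
  have p2 : (S.map fun z => ‖z ^ (2 * N) + 1‖).prod =
      2 ^ G.natDegree * (S.map fun z => ‖(toC (2 * (R * (R - 1)) + 1)).eval z‖).prod := by
    rw [Multiset.map_congr rfl e2, Multiset.prod_map_mul, Multiset.map_const',
      Multiset.prod_replicate, hcard]
  have q1 : (4 : ℝ) ^ G.natDegree ≤ (S.map fun z => ‖z ^ (2 * N) - 1‖).prod := by
    rw [p1]
    exact le_mul_of_one_le_right (by positivity) hF1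
  have q2 : (2 : ℝ) ^ G.natDegree ≤ (S.map fun z => ‖z ^ (2 * N) + 1‖).prod := by
    rw [p2]
    exact le_mul_of_one_le_right (by positivity) hF2
  -- upper bound
  have up : (S.map fun z => (‖z ^ (2 * N) - 1‖ ^ 2) ^ 4 * ‖z ^ (2 * N) + 1‖ ^ 2).prod ≤
      (S.map fun z => (262144 / 3125) * (max 1 ‖z‖ ^ N) ^ 20).prod := by
    apply Multiset.prod_map_le_prod_map₀
    · intro z _; positivity
    · intro z _; exact local_bound N z
  have up2 : (S.map fun z : ℂ => (262144 / 3125 : ℝ) * (max 1 ‖z‖ ^ N) ^ 20).prod =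
      (262144 / 3125) ^ G.natDegree * ((toC G).mahlerMeasure ^ (4 * N)) ^ 5 := by
    rw [Multiset.prod_map_mul, Multiset.map_const', Multiset.prod_replicate, hcard, hM]
    congr 1
    rw [← pow_mul]
    rw [← Multiset.prod_map_pow]
    congr 1
    apply Multiset.map_congr rfl
    intro z _
    rw [← pow_mul]
    congr 1
    ring
  have lo : (S.map fun z => (‖z ^ (2 * N) - 1‖ ^ 2) ^ 4 * ‖z ^ (2 * N) + 1‖ ^ 2).prod =
      ((S.map fun z => ‖z ^ (2 * N) - 1‖).prod) ^ 8 * ((S.map fun z => ‖z ^ (2 * N) + 1‖).prod) ^ 2 := by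
    rw [Multiset.prod_map_mul, ← Multiset.prod_map_pow, ← Multiset.prod_map_pow]
    congr 2
    apply Multiset.map_congr rfl
    intro z _
    rw [← pow_mul]
  rw [lo, up2] at up
  have lo2 : ((4 : ℝ) ^ G.natDegree) ^ 8 * ((2 : ℝ) ^ G.natDegree) ^ 2 ≤
      ((S.map fun z => ‖z ^ (2 * N) - 1‖).prod) ^ 8 *
        ((S.map fun z => ‖z ^ (2 * N) + 1‖).prod) ^ 2 := by
    gcongr
  have fin := lo2.trans up
  have hM1 : 0 ≤ (toC G).mahlerMeasure ^ (4 * N) := by
    have := mahlerMeasure_nonneg (toC G)
    positivity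
  have key : ((5 : ℝ) ^ G.natDegree) ^ 5 ≤ ((toC G).mahlerMeasure ^ (4 * N)) ^ 5 := by
    have e : ((4 : ℝ) ^ G.natDegree) ^ 8 * ((2 : ℝ) ^ G.natDegree) ^ 2 =
        (262144 / 3125) ^ G.natDegree * ((5 : ℝ) ^ G.natDegree) ^ 5 := by
      rw [← pow_mul, ← pow_mul, ← pow_mul, mul_comm _ 8, mul_comm _ 2, mul_comm _ 5, pow_mul,
        pow_mul, pow_mul, ← mul_pow, ← mul_pow]
      norm_num
    rw [e] at fin
    exact le_of_mul_le_mul_left fin (by positivity)
  exact (pow_le_pow_iff_left₀ (by positivity) hM1 (by norm_num)).1 key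

end Pool.Agent.Helper86.TwoBridge
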